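import Pool.Agent.R537.HD.Defs
import Pool.Agent.R537.RN.NFEff
import Pool.Agent.H612.TmPoly
import Pool.Agent.H612.FmGap

/-!
# The instance of the reduction
-/

set_option autoImplicit false

namespace Pool.Agent.NPC.R537HD

open Pool.Agent.NPC Pool.Agent.NPC.ER Pool.Agent.NPC.H612
open Pool.Agent.R537.RN (pick qsum cerr Phi kap kap' kap'' Sent Good)

/-- A sentence. -/
abbrev Inp : Type := List ℕ × List ℕ × Fm

section

variable (p : Inp)

/-- The system of constraints. -/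
def nS : List ER.Con := sysOf p.2.2
/-- Its variables. -/
def vS : List ℕ := (nS p).flatMap Con.vars
/-- The size of the first block. -/
def dn : ℕ := p.1.length
/-- The size of the second block. -/
def dm : ℕ := p.2.1.length
/-- The size of the third block. -/
def dl : ℕ := (vS p).length + 1
/-- The number of the constraints. -/
def ds : ℕ := (nS p).length
/-- The first exponent. -/
def dk : ℕ := kap (dl p) (ds p)
/-- The second exponent. -/
def dk' : ℕ := kap' (dm p) (dl p) (ds p)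
/-- The third exponent. -/
def dk'' : ℕ := kap'' (dn p) (dm p) (dl p) (ds p)
/-- The first index of the powers of the first kind. -/
def bW : ℕ := dn p + dm p + 3 + dl p
/-- The first index of the powers of the second kind. -/
def bR : ℕ := bW p + (dk p + 1)
/-- The first index of the powers of the third kind. -/
def bS : ℕ := bR p + (dk' p + 1)
/-- The number of the coordinates of the third block. -/
def dL : ℕ := (dl p + 1) + (dk p + 1) + (dk' p + 1) + (dk'' p + 1)
/-- The index of the last coordinate. -/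
def ih : ℕ := dn p + (dm p + 2) + dL p
/-- The distance. -/
def rad : ℕ := dL p + 4

/-- The square of a term. -/
def sqT (t : Tm) : Tm := Tm.mul t t
/-- The difference of terms. -/
def subT (s t : Tm) : Tm := Tm.add s (Tm.neg t)
/-- A natural number. -/
def numT (n : ℕ) : Tm := natT n.bits

@[simp] theorem eval_sqT (v : ℕ → ℝ) (t : Tm) : (sqT t).eval v = t.eval v ^ 2 := by
  simp [sqT, Tm.eval, sq]

@[simp] theorem eval_subT (v : ℕ → ℝ) (s t : Tm) : (subT s t).eval v = s.eval v - t.eval v := by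
  simp [subT, Tm.eval, sub_eq_add_neg]

@[simp] theorem eval_numT (v : ℕ → ℝ) (n : ℕ) : (numT n).eval v = n := by
  rw [numT, eval_natT, valB_bits]

/-- `σ`. -/
def tσ : Tm := Tm.var (bS p + dk'' p)
/-- `r`. -/
def tr : Tm := sqT (Tm.var (dn p))
/-- `t`. -/
def tt' : Tm := sqT (Tm.var (dn p + dm p + 2))

/-- The terms of the variables. -/
def tPick (i : ℕ) : Tm :=
  if i % 2 = 0 ∧ i / 2 ∈ p.1 then
    Tm.mul (Tm.mul (tr p) (tt' p)) (Tm.var (p.1.idxOf (i / 2)))
  else if i % 2 = 0 ∧ i / 2 ∈ p.2.1 then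
    Tm.mul (Tm.mul (tσ p) (tt' p)) (Tm.var (dn p + 2 + p.2.1.idxOf (i / 2)))
  else Tm.mul (Tm.mul (tσ p) (tr p)) (Tm.var (dn p + dm p + 3 + (vS p).idxOf i))

/-- The homogenising variable. -/
def tw : Tm := Tm.mul (Tm.mul (tσ p) (tr p)) (tt' p)

/-- The form of a constraint. -/
def tCerr (c : ER.Con) : Tm :=
  if c.code.1 = 0 then Tm.mul (tw p) (subT (tPick p c.code.2.1) (tw p))
  else if c.code.1 = 1 then Tm.mul (tw p)
    (subT (Tm.add (tPick p c.code.2.1) (tPick p c.code.2.2.1)) (tPick p c.code.2.2.2))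
  else subT (Tm.mul (tPick p c.code.2.1) (tPick p c.code.2.2.1))
    (Tm.mul (tw p) (tPick p c.code.2.2.2))

/-- The sum of the squares. -/
def tQ : Tm := sumT ((nS p).map fun c => sqT (tCerr p c))

/-- The main polynomial. -/
def tPhi : Tm :=
  Tm.add (subT (Tm.mul (Tm.add (sqT (tr p)) (sqT (Tm.var (dn p + 1)))) (tQ p))
    (Tm.mul (Tm.mul (sqT (sqT (tσ p))) (Tm.mul (sqT (sqT (tr p))) (sqT (tr p))))
      (Tm.var (bW p + dk p))))
    (Tm.mul (Tm.mul (sqT (sqT (tσ p))) (tσ p)) (Tm.var (bR p + dk' p)))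

/-- A chain of squares. -/
def chain (b k : ℕ) : List Fm :=
  (List.range k).map fun j => Fm.eq (Tm.var (b + j + 1)) (sqT (Tm.var (b + j)))

/-- The conditions on the coordinates in the open cube. -/
def fP : List Fm :=
  Fm.eq (Tm.var (bW p)) (tt' p) :: (chain (bW p) (dk p) ++
    Fm.eq (Tm.var (bR p)) (tr p) :: (chain (bR p) (dk' p) ++
      Fm.eq (Tm.add (Tm.var (bS p)) (Tm.var (bS p))) Tm.one :: (chain (bS p) (dk'' p) ++
        [Fm.le (tPhi p) Tm.zero])))

/-- The squares of the given coordinates. -/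
def sqs (b k : ℕ) : List Tm := (List.range k).map fun j => sqT (Tm.var (b + j))

/-- The formula for the main part of the second set. -/
def fC : Fm :=
  conj ((sqs 0 (dn p)).map (fun t => Fm.le t Tm.one) ++
    ((sqs (dn p + (dm p + 2)) (dL p)).map (fun t => Fm.le t Tm.one) ++
      [Fm.or (Fm.not (conj ((sqs (dn p) (dm p + 2)).map fun t => Fm.lt t Tm.one))) (conj (fP p)),
       Fm.eq (sumT (sqs (dn p + (dm p + 2)) (dL p + 1))) (numT (rad p * rad p)),
       Fm.le Tm.zero (Tm.var (ih p))]))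

/-- The given coordinates vanish. -/
def zer (b k : ℕ) : Fm := conj ((List.range k).map fun j => Fm.eq (Tm.var (b + j)) Tm.zero)

/-- The formula of the second set. -/
def fB : Fm :=
  Fm.or (fC p) (Fm.or
    (Fm.and (zer (dn p + (dm p + 2)) (dL p)) (Fm.eq (Tm.var (ih p)) (numT (2 * rad p))))
    (Fm.or
      (Fm.eq (Tm.add (sumT (sqs (dn p + (dm p + 2)) (dL p)))
        (sqT (subT (Tm.var (ih p)) (numT (100 * rad p))))) (numT (rad p * rad p)))
      (Fm.eq (Tm.add (sumT (sqs (dn p + (dm p + 2)) (dL p)))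
        (sqT (Tm.add (Tm.var (ih p)) (numT (300 * rad p))))) (numT (rad p * rad p)))))

/-- The formula of the first set. -/
def fA : Fm :=
  Fm.or (Fm.and (zer 0 (dn p)) (Fm.and (zer (dn p + (dm p + 2)) (dL p))
      (Fm.eq (Tm.var (ih p)) Tm.zero)))
    (Fm.and (zer (dn p + (dm p + 2)) (dL p))
      (Fm.or (Fm.eq (Tm.var (ih p)) (numT (2 * rad p - 2)))
        (Fm.or (Fm.eq (Tm.var (ih p)) (numT (100 * rad p)))
          (Fm.eq (Tm.add (Tm.var (ih p)) (numT (300 * rad p))) Tm.zero))))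

/-- The instance. -/
def inst : Inst :=
  (List.replicate (dn p + (dm p + 2) + (dL p + 1)) (), fA p, fB p, (rad p : ℚ))

/-! ### The values of the terms -/

/-- The places of the variables. -/
def loc (i : ℕ) : Fin (dn p) ⊕ (Fin (dm p) ⊕ Fin (dl p)) :=
  if h : i % 2 = 0 ∧ i / 2 ∈ p.1 then
    Sum.inl ⟨p.1.idxOf (i / 2), List.idxOf_lt_length_iff.2 h.2⟩
  else if h : i % 2 = 0 ∧ i / 2 ∈ p.2.1 then
    Sum.inr (Sum.inl ⟨p.2.1.idxOf (i / 2), List.idxOf_lt_length_iff.2 h.2⟩)
  else Sum.inr (Sum.inr ⟨(vS p).idxOf i, Nat.lt_succ_of_le List.idxOf_le_length⟩)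

theorem eval_tPick (v : ℕ → ℝ) (i : ℕ) : (tPick p i).eval v =
    pick (loc p) (fun j => (v (dn p)) ^ 2 * (v (dn p + dm p + 2)) ^ 2 * v j)
      (fun j => v (bS p + dk'' p) * (v (dn p + dm p + 2)) ^ 2 * v (dn p + 2 + j))
      (fun j => v (bS p + dk'' p) * (v (dn p)) ^ 2 * v (dn p + dm p + 3 + j)) i := by
  unfold tPick pick loc
  by_cases h1 : i % 2 = 0 ∧ i / 2 ∈ p.1
  · rw [if_pos h1, dif_pos h1]
    simp [Tm.eval, tr, tt']
  · rw [if_neg h1, dif_neg h1]
    by_cases h2 : i % 2 = 0 ∧ i / 2 ∈ p.2.1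
    · rw [if_pos h2, dif_pos h2]
      simp [Tm.eval, tσ, tt']
    · rw [if_neg h2, dif_neg h2]
      simp [Tm.eval, tσ, tr]

theorem eval_tw (v : ℕ → ℝ) : (tw p).eval v =
    v (bS p + dk'' p) * (v (dn p)) ^ 2 * (v (dn p + dm p + 2)) ^ 2 := by
  simp [tw, Tm.eval, tσ, tr, tt']

theorem eval_tCerr (v : ℕ → ℝ) (c : ER.Con) : (tCerr p c).eval v =
    cerr (fun i => (tPick p i).eval v) ((tw p).eval v) c := by
  cases c <;> simp [tCerr, Con.code, cerr, Tm.eval]

theorem eval_tQ (v : ℕ → ℝ) : (tQ p).eval v =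
    qsum (fun i => (tPick p i).eval v) ((tw p).eval v) (nS p) := by
  unfold tQ qsum
  rw [eval_sumT, List.map_map]
  congr 1
  refine List.map_congr_left fun c _ => ?_
  simp [eval_tCerr]

theorem eval_tPhi (v : ℕ → ℝ) : (tPhi p).eval v =
    Phi (loc p) (nS p) (v (bS p + dk'' p)) ((v (dn p)) ^ 2) (v (dn p + 1))
      ((v (dn p + dm p + 2)) ^ 2) (v (bW p + dk p)) (v (bR p + dk' p)) (fun j => v j)
      (fun j => v (dn p + 2 + j)) (fun j => v (dn p + dm p + 3 + j)) := by
  unfold tPhi Phi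
  simp only [Tm.eval, eval_subT, eval_sqT, eval_tQ, eval_tw]
  have h : (fun i => (tPick p i).eval v) =
      pick (loc p) (fun j => (v (dn p)) ^ 2 * (v (dn p + dm p + 2)) ^ 2 * v j)
      (fun j => v (bS p + dk'' p) * (v (dn p + dm p + 2)) ^ 2 * v (dn p + 2 + j))
      (fun j => v (bS p + dk'' p) * (v (dn p)) ^ 2 * v (dn p + dm p + 3 + j)) :=
    funext (eval_tPick p v)
  rw [h]
  simp only [tσ, tr, Tm.eval, eval_sqT]
  ring

theorem holds_chain (v : ℕ → ℝ) (b k : ℕ) :
    (∀ φ ∈ chain b k, φ.Holds v) ↔ ∀ j < k, v (b + j + 1) = v (b + j) ^ 2 := by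
  simp [chain, Fm.Holds, Tm.eval]

theorem chain_val (v : ℕ → ℝ) (b k : ℕ) (h : ∀ j < k, v (b + j + 1) = v (b + j) ^ 2) :
    ∀ j ≤ k, v (b + j) = v b ^ (2 ^ j) := by
  intro j
  induction j with
  | zero => intro _; simp
  | succ j ih =>
    intro hj
    have h1 := h j (by omega)
    rw [show b + (j + 1) = b + j + 1 by ring, h1, ih (by omega), ← pow_mul]
    congr 1

theorem holds_fP (v : ℕ → ℝ) : (∀ φ ∈ fP p, φ.Holds v) ↔
    (v (bW p) = (v (dn p + dm p + 2)) ^ 2 ∧ ∀ j < dk p, v (bW p + j + 1) = v (bW p + j) ^ 2) ∧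
    (v (bR p) = (v (dn p)) ^ 2 ∧ ∀ j < dk' p, v (bR p + j + 1) = v (bR p + j) ^ 2) ∧
    (v (bS p) + v (bS p) = 1 ∧ ∀ j < dk'' p, v (bS p + j + 1) = v (bS p + j) ^ 2) ∧
    (tPhi p).eval v ≤ 0 := by
  unfold fP
  generalize hF : tPhi p = F
  simp only [List.forall_mem_cons, List.forall_mem_append, holds_chain, Fm.Holds, Tm.eval, tt',
    tr, eval_sqT, List.not_mem_nil, false_implies, implies_true, and_true, and_assoc]

end

end Pool.Agent.NPC.R537HD
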