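import Pool.Agent.R537.HD.Build
import Pool.Agent.R537.RN.GHB

/-!
# Coordinates
-/

set_option autoImplicit false

namespace Pool.Agent.NPC.R537HD

open Pool.Agent.NPC Pool.Agent.NPC.ER Pool.Agent.NPC.H612 Pool.Agent.R537.RN Filter Topology

/-- The three blocks of coordinates. -/
noncomputable def spl (n m k : ℕ) : Split (EuclideanSpace ℝ (Fin (n + m + k)))
    (EuclideanSpace ℝ (Fin n)) (EuclideanSpace ℝ (Fin m)) (EuclideanSpace ℝ (Fin k)) where
  X := { toFun := fun q => WithLp.toLp 2 fun j => q (Fin.castAdd k (Fin.castAdd m j))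
         map_add' := fun _ _ => rfl
         map_smul' := fun _ _ => rfl }
  Y := { toFun := fun q => WithLp.toLp 2 fun j => q (Fin.castAdd k (Fin.natAdd n j))
         map_add' := fun _ _ => rfl
         map_smul' := fun _ _ => rfl }
  W := { toFun := fun q => WithLp.toLp 2 fun j => q (Fin.natAdd (n + m) j)
         map_add' := fun _ _ => rfl
         map_smul' := fun _ _ => rfl }
  pt := fun x y w => WithLp.toLp 2 (Fin.append (Fin.append (fun i => x i) fun i => y i)
    fun i => w i)
  X_mk := fun x y w => by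
    ext j
    change Fin.append (Fin.append (fun i => x i) fun i => y i) (fun i => w i)
      (Fin.castAdd k (Fin.castAdd m j)) = x j
    simp
  Y_mk := fun x y w => by
    ext j
    change Fin.append (Fin.append (fun i => x i) fun i => y i) (fun i => w i)
      (Fin.castAdd k (Fin.natAdd n j)) = y j
    simp
  W_mk := fun x y w => by
    ext j
    change Fin.append (Fin.append (fun i => x i) fun i => y i) (fun i => w i)
      (Fin.natAdd (n + m) j) = w j
    simp
  norm_sq := fun q => by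
    simp only [EuclideanSpace.norm_sq_eq]
    rw [Fin.sum_univ_add, Fin.sum_univ_add]
    rfl

variable {n m k : ℕ}

theorem asg_X (q : EuclideanSpace ℝ (Fin (n + m + k))) {j : ℕ} (hj : j < n) :
    asg q j = (spl n m k).X q ⟨j, hj⟩ := by
  unfold asg
  rw [dif_pos (by omega)]
  rfl

theorem asg_Y (q : EuclideanSpace ℝ (Fin (n + m + k))) {j : ℕ} (hj : j < m) :
    asg q (n + j) = (spl n m k).Y q ⟨j, hj⟩ := by
  unfold asg
  rw [dif_pos (by omega)]
  rfl

theorem asg_W (q : EuclideanSpace ℝ (Fin (n + m + k))) {j : ℕ} (hj : j < k) :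
    asg q (n + m + j) = (spl n m k).W q ⟨j, hj⟩ := by
  unfold asg
  rw [dif_pos (by omega)]
  rfl

theorem continuous_asg (i : ℕ) : Continuous fun q : EuclideanSpace ℝ (Fin n) => asg q i := by
  unfold asg
  split_ifs with h
  · fun_prop
  · exact continuous_const

theorem holds_zer (v : ℕ → ℝ) (b k : ℕ) : (zer b k).Holds v ↔ ∀ j < k, v (b + j) = 0 := by
  unfold zer
  rw [holds_conj]
  simp [Fm.Holds, Tm.eval]

theorem eval_sqs (v : ℕ → ℝ) (b k : ℕ) :
    (sumT (sqs b k)).eval v = ∑ j ∈ Finset.range k, v (b + j) ^ 2 := by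
  rw [eval_sumT, sqs, List.map_map]
  have h : (Tm.eval v ∘ fun j => sqT (Tm.var (b + j))) = fun j => v (b + j) ^ 2 := by
    funext j
    simp [Tm.eval]
  rw [h]
  induction k with
  | zero => simp
  | succ k ih => rw [List.range_succ, Finset.sum_range_succ, ← ih]; simp

/-- The last unit vector. -/
noncomputable def eL (L : ℕ) : EuclideanSpace ℝ (Fin (L + 1)) :=
  EuclideanSpace.single (Fin.last L) 1

theorem norm_eL (L : ℕ) : ‖eL L‖ = 1 := by simp [eL]

theorem eL_last (L : ℕ) : eL L (Fin.last L) = 1 := by simp [eL]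

theorem eL_cast (L : ℕ) (j : Fin L) : eL L (Fin.castSucc j) = 0 := by
  have : Fin.castSucc j ≠ Fin.last L := (Fin.castSucc_lt_last j).ne
  simp [eL, this]

theorem norm_sub_smul (L : ℕ) (w : EuclideanSpace ℝ (Fin (L + 1))) (t : ℝ) :
    ‖w - t • eL L‖ ^ 2 = ∑ j : Fin L, w (Fin.castSucc j) ^ 2 + (w (Fin.last L) - t) ^ 2 := by
  rw [EuclideanSpace.norm_sq_eq, Fin.sum_univ_castSucc]
  congr 1
  · refine Finset.sum_congr rfl fun j _ => ?_
    rw [PiLp.sub_apply, PiLp.smul_apply, eL_cast, smul_zero, sub_zero, Real.norm_eq_abs, sq_abs]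
  · rw [PiLp.sub_apply, PiLp.smul_apply, eL_last, smul_eq_mul, mul_one, Real.norm_eq_abs, sq_abs]

theorem eq_smul_iff (L : ℕ) (w : EuclideanSpace ℝ (Fin (L + 1))) (t : ℝ) :
    w = t • eL L ↔ (∀ j : Fin L, w (Fin.castSucc j) = 0) ∧ w (Fin.last L) = t := by
  constructor
  · rintro rfl
    constructor
    · intro j
      rw [PiLp.smul_apply, eL_cast, smul_zero]
    · rw [PiLp.smul_apply, eL_last, smul_eq_mul, mul_one]
  · rintro ⟨h1, h2⟩
    ext j
    refine Fin.lastCases ?_ (fun j => ?_) j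
    · rw [h2, PiLp.smul_apply, eL_last, smul_eq_mul, mul_one]
    · rw [h1, PiLp.smul_apply, eL_cast, smul_zero]

section

variable {n m L : ℕ} (q : EuclideanSpace ℝ (Fin (n + m + (L + 1))))

theorem asg_cast {j : ℕ} (hj : j < L) : asg q (n + m + j) =
    (spl n m (L + 1)).W q (Fin.castSucc ⟨j, hj⟩) := asg_W q (by omega)

theorem asg_last : asg q (n + m + L) = (spl n m (L + 1)).W q (Fin.last L) := asg_W q (by omega)

theorem sum_asg (t : ℝ) : ∑ j ∈ Finset.range L, asg q (n + m + j) ^ 2 +
    (asg q (n + m + L) - t) ^ 2 = ‖(spl n m (L + 1)).W q - t • eL L‖ ^ 2 := by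
  rw [norm_sub_smul, asg_last]
  congr 1
  rw [← Fin.sum_univ_eq_sum_range (fun j => asg q (n + m + j) ^ 2)]
  refine Finset.sum_congr rfl fun j _ => ?_
  rw [asg_cast q j.2]

theorem W_eq_iff (t : ℝ) : (spl n m (L + 1)).W q = t • eL L ↔
    (∀ j < L, asg q (n + m + j) = 0) ∧ asg q (n + m + L) = t := by
  rw [eq_smul_iff, ← asg_last]
  refine and_congr_left fun _ => ?_
  constructor
  · intro h j hj
    rw [asg_cast q hj]
    exact h _
  · intro h j
    rw [← asg_cast q j.2]
    exact h _ j.2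

theorem X_eq_zero_iff : (spl n m (L + 1)).X q = 0 ↔ ∀ j < n, asg q j = 0 := by
  constructor
  · intro h j hj
    rw [asg_X q hj, h]
    rfl
  · intro h
    ext j
    rw [← asg_X q j.2, h _ j.2]
    rfl

end

end Pool.Agent.NPC.R537HD
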