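import Pool.Agent.R537.HD.Geo

/-!
# Correctness of the reduction, continued
-/

set_option autoImplicit false

namespace Pool.Agent.NPC.R537HD

open Pool.Agent.NPC Pool.Agent.NPC.ER Pool.Agent.NPC.H612 Pool.Agent.R537.RN Filter Topology
open Metric (hausdorffEDist)

variable (p : Inp)

theorem sq_lt_one_iff' {a : ℝ} : a ^ 2 < 1 ↔ |a| < 1 := by
  rw [← sq_abs, sq_lt_one_iff₀ (abs_nonneg a)]

theorem sq_le_one_iff' {a : ℝ} : a ^ 2 ≤ 1 ↔ |a| ≤ 1 := by
  rw [← sq_abs, sq_le_one_iff₀ (abs_nonneg a)]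

theorem sent_of_CC (h : ∃ x, ∀ y, ∃ w, (x, y, w) ∈ CC p) : Sent (loc p) (nS p) := by
  obtain ⟨x, hx⟩ := h
  refine sent_of_good (loc p) (nS p) (σ := (1 / 2) ^ (2 ^ dk'' p)) (by positivity)
    (fun j => x j) fun Y hY => ?_
  obtain ⟨w, hw⟩ := hx (WithLp.toLp 2 Y)
  set q := (sp p).pt x (WithLp.toLp 2 Y) w with hq
  have eX : (sp p).X q = x := (sp p).X_mk _ _ _
  have eY : (sp p).Y q = WithLp.toLp 2 Y := (sp p).Y_mk _ _ _
  have hw' : (fC p).Holds (asg q) := hw
  obtain ⟨-, h2, h3, -, -⟩ := (holds_fC p _).1 hw'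
  have hYv : ∀ j (hj : j < dm p + 2), asg q (dn p + j) = Y ⟨j, hj⟩ := by
    intro j hj
    rw [asg_Y q hj, eY]
  have h3' := h3.resolve_left (not_not.2 fun j hj => by
    rw [hYv j hj, sq_lt_one_iff']
    exact hY _)
  rw [holds_fP] at h3'
  obtain ⟨⟨a1, a2⟩, ⟨b1, b2⟩, ⟨c1, c2⟩, hPhi⟩ := h3'
  have va := chain_val (asg q) (bW p) (dk p) a2 _ (le_refl _)
  have vb := chain_val (asg q) (bR p) (dk' p) b2 _ (le_refl _)
  have vc := chain_val (asg q) (bS p) (dk'' p) c2 _ (le_refl _)
  have hc0 : asg q (bS p) = 1 / 2 := by linarith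
  rw [a1] at va
  rw [b1] at vb
  rw [hc0] at vc
  rw [eval_tPhi, va, vb, vc] at hPhi
  have hL : dl p + 1 ≤ dL p := by unfold dL; omega
  refine ⟨fun j => asg q (dn p + (dm p + 2) + j), ?_, ?_⟩
  · intro j
    have := h2 j (by have := j.2; omega)
    rwa [sq_le_one_iff'] at this
  · have f1 : asg q (dn p) = Y 0 := by
      have := hYv 0 (by omega)
      simpa using this
    have f2 : asg q (dn p + 1) = Y 1 := by
      have := hYv 1 (by omega)
      rw [this]
      rfl
    have f3 : (fun j : Fin (dm p) => asg q (dn p + 2 + j)) = fun j => Y j.succ.succ := by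
      funext j
      have := hYv (j + 2) (by have := j.2; omega)
      rw [show dn p + 2 + (j : ℕ) = dn p + (j + 2) by ring, this]
      rfl
    have f4 : (fun j : Fin (dn p) => asg q j) = fun j => x j := by
      funext j
      rw [asg_X q j.2, eX]
    have f5 : (fun j : Fin (dl p) => asg q (dn p + dm p + 3 + j)) =
        fun j => asg q (dn p + (dm p + 2) + (j.succ : Fin (dl p + 1))) := by
      funext j
      congr 1
      simp only [Fin.val_succ]
      ring
    have f6 : asg q (dn p + dm p + 2) =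
        asg q (dn p + (dm p + 2) + ((0 : Fin (dl p + 1)) : ℕ)) := by
      congr 1
    rw [f1, f2, f3, f4, f5, f6] at hPhi
    exact hPhi

/-- The values of the coordinates of the third block. -/
noncomputable def zval (Y : Fin (dm p + 2) → ℝ) (U : Fin (dl p + 1) → ℝ) (j : ℕ) : ℝ :=
  if h : j < dl p + 1 then U ⟨j, h⟩
  else if j < (dl p + 1) + (dk p + 1) then ((U 0) ^ 2) ^ (2 ^ (j - (dl p + 1)))
  else if j < (dl p + 1) + (dk p + 1) + (dk' p + 1) then
    ((Y 0) ^ 2) ^ (2 ^ (j - ((dl p + 1) + (dk p + 1))))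
  else (1 / 2) ^ (2 ^ (j - ((dl p + 1) + (dk p + 1) + (dk' p + 1))))

theorem zval_le (Y : Fin (dm p + 2) → ℝ) (U : Fin (dl p + 1) → ℝ) (hY : Y ∈ cube (dm p + 2))
    (hU : U ∈ cube (dl p + 1)) (j : ℕ) : |zval p Y U j| ≤ 1 := by
  have key : ∀ (a : ℝ) (k : ℕ), |a| ≤ 1 → |(a ^ 2) ^ k| ≤ 1 := by
    intro a k ha
    rw [abs_of_nonneg (by positivity)]
    exact pow_le_one₀ (sq_nonneg _) (sq_le_one_iff'.2 ha)
  unfold zval
  split_ifs with h1 h2 h3
  · exact hU _
  · exact key _ _ (hU 0)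
  · exact key _ _ (hY 0)
  · rw [abs_of_nonneg (by positivity)]
    exact pow_le_one₀ (by norm_num) (by norm_num)

theorem exists_point (x : EuclideanSpace ℝ (Fin (dn p))) (hx : ∀ j, |x j| ≤ 1)
    (y : EuclideanSpace ℝ (Fin (dm p + 2))) (z : ℕ → ℝ) (hz : ∀ j, |z j| ≤ 1)
    (h : ∀ v : ℕ → ℝ, (∀ j (hj : j < dn p), v j = x ⟨j, hj⟩) →
      (∀ j (hj : j < dm p + 2), v (dn p + j) = y ⟨j, hj⟩) →
      (∀ j < dL p, v (dn p + (dm p + 2) + j) = z j) →
      ((¬ ∀ j < dm p + 2, v (dn p + j) ^ 2 < 1) ∨ ∀ φ ∈ fP p, φ.Holds v)) :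
    ∃ w, (x, y, w) ∈ CC p := by
  have hs : ∑ j ∈ Finset.range (dL p), z j ^ 2 ≤ dL p := by
    calc ∑ j ∈ Finset.range (dL p), z j ^ 2 ≤ ∑ _j ∈ Finset.range (dL p), (1 : ℝ) :=
          Finset.sum_le_sum fun i _ => sq_le_one_iff'.2 (hz i)
      _ = dL p := by simp
  have hR := rad_real p
  have hL0 : (0 : ℝ) ≤ dL p := Nat.cast_nonneg _
  have hle : ∑ j ∈ Finset.range (dL p), z j ^ 2 ≤ (rad p : ℝ) * rad p := by
    rw [hR]; nlinarith
  let wf : Fin (dL p + 1) → ℝ := Fin.lastCases
    (Real.sqrt ((rad p : ℝ) * rad p - ∑ j ∈ Finset.range (dL p), z j ^ 2)) (fun j => z j)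
  have wl : wf (Fin.last _) =
      Real.sqrt ((rad p : ℝ) * rad p - ∑ j ∈ Finset.range (dL p), z j ^ 2) := by
    simp [wf]
  have wc : ∀ j : Fin (dL p), wf (Fin.castSucc j) = z j := by
    intro j; simp [wf]
  refine ⟨WithLp.toLp 2 wf, ?_⟩
  change (fC p).Holds (asg ((sp p).pt x y (WithLp.toLp 2 wf)))
  set q := (sp p).pt x y (WithLp.toLp 2 wf) with hq
  have eX : (sp p).X q = x := (sp p).X_mk _ _ _
  have eY : (sp p).Y q = y := (sp p).Y_mk _ _ _
  have eW : (sp p).W q = WithLp.toLp 2 wf := (sp p).W_mk _ _ _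
  have vX : ∀ j (hj : j < dn p), asg q j = x ⟨j, hj⟩ := by
    intro j hj
    rw [asg_X q hj, eX]
  have vY : ∀ j (hj : j < dm p + 2), asg q (dn p + j) = y ⟨j, hj⟩ := by
    intro j hj
    rw [asg_Y q hj, eY]
  have vZ : ∀ j < dL p, asg q (dn p + (dm p + 2) + j) = z j := by
    intro j hj
    rw [asg_cast q hj, eW]
    exact wc ⟨j, hj⟩
  have vL : asg q (dn p + (dm p + 2) + dL p) =
      Real.sqrt ((rad p : ℝ) * rad p - ∑ j ∈ Finset.range (dL p), z j ^ 2) := by
    rw [asg_last q, eW]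
    exact wl
  rw [holds_fC]
  refine ⟨?_, ?_, h _ vX vY vZ, ?_, ?_⟩
  · intro j hj
    rw [zero_add, vX j hj]
    exact sq_le_one_iff'.2 (hx _)
  · intro j hj
    rw [vZ j hj]
    exact sq_le_one_iff'.2 (hz _)
  · rw [Finset.sum_range_succ, vL, Real.sq_sqrt (by linarith)]
    have : ∑ j ∈ Finset.range (dL p), asg q (dn p + (dm p + 2) + j) ^ 2 =
        ∑ j ∈ Finset.range (dL p), z j ^ 2 := by
      refine Finset.sum_congr rfl fun j hj => ?_
      rw [vZ j (Finset.mem_range.1 hj)]
    rw [this]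
    ring
  · unfold ih
    rw [vL]
    exact Real.sqrt_nonneg _

theorem CC_of_sent (h : Sent (loc p) (nS p)) : ∃ x, ∀ y, ∃ w, (x, y, w) ∈ CC p := by
  obtain ⟨x, hx, hx2⟩ := good_of_sent_eff (loc p) (nS p) h
  refine ⟨WithLp.toLp 2 x, fun y => ?_⟩
  by_cases hy : (fun j => y j) ∈ cube (dm p + 2)
  · obtain ⟨U, hU, hPhi⟩ := hx2 (fun j => y j) hy
    refine exists_point p (WithLp.toLp 2 x) hx y (zval p (fun j => y j) U)
      (zval_le p _ _ hy hU) ?_
    intro v vX vY vZ
    right
    rw [holds_fP]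
    have hw : v (dn p + dm p + 2) = U 0 := by
      have h1 := vZ 0 (by unfold dL; omega)
      rw [show dn p + dm p + 2 = dn p + (dm p + 2) + 0 by ring, h1]
      unfold zval
      rw [dif_pos (by omega)]
      rfl
    have hρ : v (dn p) = y 0 := by
      have h1 := vY 0 (by omega)
      rw [show dn p = dn p + 0 by ring, h1]
      rfl
    have hγ : v (dn p + 1) = y 1 := by
      rw [vY 1 (by omega)]
      rfl
    have vW : ∀ j ≤ dk p, v (bW p + j) = ((U 0) ^ 2) ^ (2 ^ j) := by
      intro j hj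
      have h1 := vZ (dl p + 1 + j) (by unfold dL; omega)
      have e : bW p + j = dn p + (dm p + 2) + (dl p + 1 + j) := by unfold bW; ring
      rw [e, h1]
      unfold zval
      rw [dif_neg (by omega), if_pos (by omega)]
      congr 2
      omega
    have vR : ∀ j ≤ dk' p, v (bR p + j) = ((y 0) ^ 2) ^ (2 ^ j) := by
      intro j hj
      have h1 := vZ (dl p + 1 + (dk p + 1) + j) (by unfold dL; omega)
      have e : bR p + j = dn p + (dm p + 2) + (dl p + 1 + (dk p + 1) + j) := by
        unfold bR bW; ring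
      rw [e, h1]
      unfold zval
      rw [dif_neg (by omega), if_neg (by omega), if_pos (by omega)]
      congr 2
      omega
    have vS : ∀ j ≤ dk'' p, v (bS p + j) = (1 / 2) ^ (2 ^ j) := by
      intro j hj
      have h1 := vZ (dl p + 1 + (dk p + 1) + (dk' p + 1) + j) (by unfold dL; omega)
      have e : bS p + j = dn p + (dm p + 2) + (dl p + 1 + (dk p + 1) + (dk' p + 1) + j) := by
        unfold bS bR bW; ring
      rw [e, h1]
      unfold zval
      rw [dif_neg (by omega), if_neg (by omega), if_neg (by omega)]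
      congr 2
      omega
    have chn : ∀ (a : ℝ) (b k : ℕ), (∀ j ≤ k, v (b + j) = a ^ (2 ^ j)) →
        ∀ j < k, v (b + j + 1) = v (b + j) ^ 2 := by
      intro a b k hk j hj
      rw [show b + j + 1 = b + (j + 1) by ring, hk (j + 1) (by omega), hk j (by omega),
        ← pow_mul]
      congr 1
    refine ⟨⟨?_, chn _ _ _ vW⟩, ⟨?_, chn _ _ _ vR⟩, ⟨?_, chn _ _ _ vS⟩, ?_⟩
    · have := vW 0 (by omega)
      simp only [add_zero, pow_zero, pow_one] at this
      rw [this, hw]
    · have := vR 0 (by omega)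
      simp only [add_zero, pow_zero, pow_one] at this
      rw [this, hρ]
    · have := vS 0 (by omega)
      simp only [add_zero, pow_zero, pow_one] at this
      rw [this]
      norm_num
    · rw [eval_tPhi, vW _ (le_refl _), vR _ (le_refl _), vS _ (le_refl _), hw, hρ, hγ]
      have f4 : (fun j : Fin (dn p) => v j) = x := by
        funext j
        rw [vX j j.2]
      have f3 : (fun j : Fin (dm p) => v (dn p + 2 + j)) = fun j => y j.succ.succ := by
        funext j
        rw [show dn p + 2 + (j : ℕ) = dn p + (j + 2) by ring, vY (j + 2) (by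
          have := j.2; omega)]
        rfl
      have f5 : (fun j : Fin (dl p) => v (dn p + dm p + 3 + j)) = fun j => U j.succ := by
        funext j
        have h1 := vZ (j + 1) (by have := j.2; unfold dL; omega)
        rw [show dn p + dm p + 3 + (j : ℕ) = dn p + (dm p + 2) + (j + 1) by ring, h1]
        unfold zval
        rw [dif_pos (by have := j.2; omega)]
        rfl
      rw [f3, f4, f5]
      exact hPhi
  · refine exists_point p (WithLp.toLp 2 x) hx y (fun _ => 0) (fun _ => by norm_num) ?_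
    intro v _ vY _
    left
    intro hall
    apply hy
    intro j
    have := hall j j.2
    rw [vY j j.2, sq_lt_one_iff'] at this
    exact this.le

theorem eae_iff_sent : EAE p ↔ Sent (loc p) (nS p) := by
  obtain ⟨E, F, φ⟩ := p
  set p : Inp := (E, F, φ) with hp
  have hloc : ∀ (x : Fin (dn p) → ℝ) (y : Fin (dm p) → ℝ) (z : Fin (dl p) → ℝ) (i : ℕ),
      pick (loc p) x y z i =
        if h : i % 2 = 0 ∧ i / 2 ∈ E then x ⟨E.idxOf (i / 2), List.idxOf_lt_length_iff.2 h.2⟩
        else if h : i % 2 = 0 ∧ i / 2 ∈ F then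
          y ⟨F.idxOf (i / 2), List.idxOf_lt_length_iff.2 h.2⟩
        else z ⟨(vS p).idxOf i, Nat.lt_succ_of_le List.idxOf_le_length⟩ := by
    intro x y z i
    unfold pick loc
    by_cases h1 : i % 2 = 0 ∧ i / 2 ∈ p.1
    · rw [dif_pos h1, dif_pos h1]
      rfl
    · rw [dif_neg h1, dif_neg h1]
      by_cases h2 : i % 2 = 0 ∧ i / 2 ∈ p.2.1
      · rw [dif_pos h2, dif_pos h2]
        rfl
      · rw [dif_neg h2, dif_neg h2]
        rfl
  constructor
  · rintro ⟨x, hx⟩
    refine ⟨fun j => x (E.get j), fun y' => ?_⟩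
    let y : ℕ → ℝ := fun i => if h : i ∈ F then y' ⟨F.idxOf i, List.idxOf_lt_length_iff.2 h⟩ else 0
    obtain ⟨z, hz⟩ := hx y
    obtain ⟨v, hv1, hv2⟩ := (sysOf_spec φ).2 _ hz
    refine ⟨fun j => v ((vS p).getD j 0), fun c hc => ?_⟩
    refine (Con.holds_congr fun i hi => ?_).2 (hv2 c hc)
    have him : i ∈ vS p := List.mem_flatMap.2 ⟨c, hc, hi⟩
    rw [hloc]
    split_ifs with h1 h2
    · have h3 : i = 2 * (i / 2) := by omega
      conv_rhs => rw [h3, hv1]
      unfold mixv
      rw [if_pos h1.2]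
      congr 1
      exact List.getElem_idxOf _
    · have h3 : i = 2 * (i / 2) := by omega
      conv_rhs => rw [h3, hv1]
      unfold mixv
      rw [if_neg (fun h => h1 ⟨h2.1, h⟩), if_pos h2.2]
      simp only [y]
      rw [dif_pos h2.2]
    · have h3 : (vS p).getD ((vS p).idxOf i) 0 = i := by
        rw [List.getD_eq_getElem _ _ (List.idxOf_lt_length_iff.2 him)]
        exact List.getElem_idxOf _
      simp only
      rw [h3]
  · rintro ⟨x', hx'⟩
    refine ⟨fun i => if h : i ∈ E then x' ⟨E.idxOf i, List.idxOf_lt_length_iff.2 h⟩ else 0,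
      fun y => ?_⟩
    obtain ⟨z', hz'⟩ := hx' fun j => y (F.get j)
    refine ⟨fun i => pick (loc p) x' (fun j => y (F.get j)) z' (2 * i), ?_⟩
    have h1 := (sysOf_spec φ).1 _ hz'
    have h2 : (fun i => pick (loc p) x' (fun j => y (F.get j)) z' (2 * i)) =
        mixv E (fun i => if h : i ∈ E then x' ⟨E.idxOf i, List.idxOf_lt_length_iff.2 h⟩ else 0)
          (mixv F y fun i => pick (loc p) x' (fun j => y (F.get j)) z' (2 * i)) := by
      funext i
      unfold mixv
      have e : 2 * i / 2 = i := by omega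
      split_ifs with h3 h4
      · rw [hloc, dif_pos ⟨by omega, by rw [e]; exact h3⟩]
        simp only
        rw [dif_pos h3]
        exact congrArg x' (Fin.ext (by simp only [e]))
      · rw [hloc, dif_neg (fun h => h3 (by rw [e] at h; exact h.2)),
          dif_pos ⟨by omega, by rw [e]; exact h4⟩]
        have h5 : F.get ⟨F.idxOf (2 * i / 2), List.idxOf_lt_length_iff.2 (by rw [e]; exact h4)⟩ =
            i := by
          rw [List.get_eq_getElem]
          exact (List.getElem_idxOf _).trans e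
        exact congrArg y h5
      · rfl
    change φ.Holds _
    rw [← h2]
    exact h1

/-- If the sentence is true, then the instance of the translation problem is positive. -/
theorem trans_of_eae (h : EAE p) : TransHausdorff (inst p) := by
  have h1 := CC_of_sent p ((eae_iff_sent p).1 h)
  unfold TransHausdorff
  change TransLE (List.replicate (DD p) ()).length (fA p) (fB p) (rad p : ℚ)
  rw [List.length_replicate]
  refine ⟨Nat.cast_nonneg _, ?_⟩
  have h2 := gh_fwd (sp p) (norm_eL (dL p)) (rad_ge p) (CC_2 p) (CC_3 p) h1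
  rw [← semi_fA, ← semi_fB] at h2
  obtain ⟨v, hv⟩ := h2
  refine ⟨v, ?_⟩
  rw [Rat.cast_natCast]
  exact hv

theorem ghle_of_transle {n : ℕ} {φ ψ : Fm} {d : ℚ} (h : TransLE n φ ψ d) : GHLE n φ ψ d := by
  obtain ⟨h0, v, hv⟩ := h
  refine ⟨h0, ?_⟩
  unfold dGH
  refine le_trans ?_ hv
  refine iInf₂_le_of_le (fun x => x + v) (IsometryEquiv.addRight v).isometry ?_
  refine iInf₂_le_of_le id isometry_id ?_
  rw [Set.image_id]

theorem ghd_of_trans {I : Inst} (h : TransHausdorff I) : GHD I := ghle_of_transle h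

theorem eae_of_ghd (h : GHD (inst p)) : EAE p := by
  rw [eae_iff_sent]
  apply sent_of_CC
  unfold GHD at h
  change GHLE (List.replicate (DD p) ()).length (fA p) (fB p) (rad p : ℚ) at h
  rw [List.length_replicate] at h
  obtain ⟨-, h1⟩ := h
  rw [Rat.cast_natCast] at h1
  have hR := rad_ge p
  refine gh_bwd (sp p) (norm_eL (dL p)) hR (isClosed_CC p) (CC_1 p) (CC_2 p) fun ε hε => ?_
  have h2 : dGH (semi (DD p) (fA p)) (semi (DD p) (fB p)) < ENNReal.ofReal (rad p + ε) := by
    refine lt_of_le_of_lt h1 ?_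
    rw [ENNReal.ofReal_lt_ofReal_iff (by linarith)]
    linarith
  unfold dGH at h2
  simp only [iInf_lt_iff] at h2
  obtain ⟨f, hf, g, hg, hfg⟩ := h2
  let F := hf.affineIsometryOfStrictConvexSpace.toAffineIsometryEquiv rfl
  let G := hg.affineIsometryOfStrictConvexSpace.toAffineIsometryEquiv rfl
  have hF : ∀ x, F x = f x := fun x => rfl
  have hG : ∀ x, G x = g x := fun x => rfl
  refine ⟨F.trans G.symm, ?_⟩
  rw [← semi_fA, ← semi_fB]
  have h3 : g '' ((F.trans G.symm) '' semi (DD p) (fA p)) = f '' semi (DD p) (fA p) := by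
    rw [Set.image_image]
    refine Set.image_congr fun x _ => ?_
    rw [← hG, AffineIsometryEquiv.coe_trans, Function.comp_apply, G.apply_symm_apply, hF]
  rw [← Metric.hausdorffEDist_image hg, h3]
  exact hfg

end Pool.Agent.NPC.R537HD
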