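import Pool.Agent.H612.EAR

/-!
# The complexity class `∃∀∃ℝ` and the Hausdorff distance under translations and isometries
-/

namespace Pool.Agent.NPC.ER

open Pool.Agent.NPC.H612

/-- The sentence `∃ x ∀ y ∃ z, φ` is true over the real numbers; here `p = (E, F, φ)`, where `E` is
the list of the variables of the first block, the variables of the list `F` which are not in `E`
form the second block, all the other variables form the third block, and `φ` is
quantifier-free. -/
def EAE (p : List ℕ × List ℕ × Fm) : Prop :=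
  ∃ x : ℕ → ℝ, ∀ y : ℕ → ℝ, ∃ z : ℕ → ℝ, p.2.2.Holds (mixv p.1 x (mixv p.2.1 y z))

/-- The class `∃∀∃ℝ`: a language `L` belongs to it if some polynomial-time function maps every
string `w` to a sentence `∃ x ∀ y ∃ z, φ` which is true over the reals if and only if `w ∈ L`. -/
def InEAE (L : Set (List Bool)) : Prop :=
  ∃ f : List Bool → List ℕ × List ℕ × Fm, PolyTime (fun w => bits (f w)) ∧ ∀ w, w ∈ L ↔ EAE (f w)

/-- `∃∀∃ℝ`-hardness under polynomial-time many-one reductions. -/
def EAEHard (L : Set (List Bool)) : Prop := ∀ L', InEAE L' → Reduces L' L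

/-- `∃∀∃ℝ`-completeness under polynomial-time many-one reductions. -/
def EAEComplete (L : Set (List Bool)) : Prop := InEAE L ∧ EAEHard L

end Pool.Agent.NPC.ER

namespace Pool.Agent.NPC.R537HD

open Pool.Agent.NPC.ER Metric

/-- The values of the variables at a point of `ℝⁿ`: the variable `xᵢ` has the value of the `i`-th
coordinate if `i < n`, and the value `0` otherwise. -/
def asg {n : ℕ} (x : EuclideanSpace ℝ (Fin n)) (i : ℕ) : ℝ := if h : i < n then x ⟨i, h⟩ else 0

/-- The semialgebraic set in `ℝⁿ` given by a quantifier-free formula. -/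
def semi (n : ℕ) (φ : Fm) : Set (EuclideanSpace ℝ (Fin n)) := {x | φ.Holds (asg x)}

/-- An instance: the dimension `n` (written in unary, as a list of length `n`), two quantifier-free
formulas and a rational number. -/
abbrev Inst : Type := List Unit × Fm × Fm × ℚ

/-- For the semialgebraic sets `A, B ⊆ ℝⁿ` given by the formulas `φ, ψ` and the rational number `d`,
there is a translation `t` with `d_H(t(A), B) ≤ d`. -/
def TransLE (n : ℕ) (φ ψ : Fm) (d : ℚ) : Prop :=
  0 ≤ d ∧ ∃ v : EuclideanSpace ℝ (Fin n),
    hausdorffEDist ((fun x => x + v) '' semi n φ) (semi n ψ) ≤ ENNReal.ofReal d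

/-- The translated Hausdorff distance problem. -/
def TransHausdorff (I : Inst) : Prop := TransLE I.1.length I.2.1 I.2.2.1 I.2.2.2

/-- The Euclidean Gromov–Hausdorff distance of two subsets of `ℝⁿ`: the infimum of the Hausdorff
distances of `f(A)` and `g(B)` over all isometries `f, g` of `ℝⁿ`. -/
noncomputable def dGH {n : ℕ} (A B : Set (EuclideanSpace ℝ (Fin n))) : ENNReal :=
  ⨅ (f : EuclideanSpace ℝ (Fin n) → EuclideanSpace ℝ (Fin n)) (_ : Isometry f)
    (g : EuclideanSpace ℝ (Fin n) → EuclideanSpace ℝ (Fin n)) (_ : Isometry g),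
    hausdorffEDist (f '' A) (g '' B)

/-- `d_GH(A, B) ≤ d` for the semialgebraic sets `A, B ⊆ ℝⁿ` given by the formulas `φ, ψ` and the
rational number `d`. -/
def GHLE (n : ℕ) (φ ψ : Fm) (d : ℚ) : Prop :=
  0 ≤ d ∧ dGH (semi n φ) (semi n ψ) ≤ ENNReal.ofReal d

/-- The Euclidean Gromov–Hausdorff distance problem. -/
def GHD (I : Inst) : Prop := GHLE I.1.length I.2.1 I.2.2.1 I.2.2.2

end Pool.Agent.NPC.R537HD
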