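import Pool.Agent.R537.HD.Coord

/-!
# Correctness of the reduction
-/

set_option autoImplicit false

namespace Pool.Agent.NPC.R537HD

open Pool.Agent.NPC Pool.Agent.NPC.ER Pool.Agent.NPC.H612 Pool.Agent.R537.RN Filter Topology
open Metric (hausdorffEDist)

variable (p : Inp)

/-- The dimension. -/
abbrev DD : ℕ := dn p + (dm p + 2) + (dL p + 1)

/-- The decomposition. -/
noncomputable abbrev sp : Split (EuclideanSpace ℝ (Fin (DD p))) (EuclideanSpace ℝ (Fin (dn p)))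
    (EuclideanSpace ℝ (Fin (dm p + 2))) (EuclideanSpace ℝ (Fin (dL p + 1))) :=
  spl (dn p) (dm p + 2) (dL p + 1)

/-- The main part of the second set. -/
def CC : Set (EuclideanSpace ℝ (Fin (dn p)) × EuclideanSpace ℝ (Fin (dm p + 2)) ×
    EuclideanSpace ℝ (Fin (dL p + 1))) :=
  {c | (fC p).Holds (asg ((sp p).pt c.1 c.2.1 c.2.2))}

theorem pt_XYW (q : EuclideanSpace ℝ (Fin (DD p))) :
    (sp p).pt ((sp p).X q) ((sp p).Y q) ((sp p).W q) = q :=
  (sp p).ext ((sp p).X_mk _ _ _) ((sp p).Y_mk _ _ _) ((sp p).W_mk _ _ _)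

theorem mem_CC_iff (q : EuclideanSpace ℝ (Fin (DD p))) :
    ((sp p).X q, (sp p).Y q, (sp p).W q) ∈ CC p ↔ (fC p).Holds (asg q) := by
  unfold CC
  simp only [Set.mem_ofPred_eq]
  rw [pt_XYW]

theorem rad_real : ((rad p : ℕ) : ℝ) = dL p + 4 := by
  unfold rad; push_cast; rfl

theorem holds_sqs_le (v : ℕ → ℝ) (b k : ℕ) :
    (∀ φ ∈ (sqs b k).map (fun t => Fm.le t Tm.one), φ.Holds v) ↔ ∀ j < k, v (b + j) ^ 2 ≤ 1 := by
  simp [sqs, Fm.Holds, Tm.eval]

theorem holds_sqs_lt (v : ℕ → ℝ) (b k : ℕ) :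
    (∀ φ ∈ (sqs b k).map (fun t => Fm.lt t Tm.one), φ.Holds v) ↔ ∀ j < k, v (b + j) ^ 2 < 1 := by
  simp [sqs, Fm.Holds, Tm.eval]

theorem holds_fC (v : ℕ → ℝ) : (fC p).Holds v ↔
    (∀ j < dn p, v (0 + j) ^ 2 ≤ 1) ∧ (∀ j < dL p, v (dn p + (dm p + 2) + j) ^ 2 ≤ 1) ∧
    ((¬ ∀ j < dm p + 2, v (dn p + j) ^ 2 < 1) ∨ ∀ φ ∈ fP p, φ.Holds v) ∧
    (∑ j ∈ Finset.range (dL p + 1), v (dn p + (dm p + 2) + j) ^ 2 = rad p * rad p) ∧
    0 ≤ v (ih p) := by
  unfold fC
  rw [holds_conj, List.forall_mem_append, List.forall_mem_append, holds_sqs_le, holds_sqs_le]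
  refine and_congr_right fun _ => and_congr_right fun _ => ?_
  rw [List.forall_mem_cons, List.forall_mem_cons, List.forall_mem_singleton]
  simp only [Fm.Holds, holds_conj, holds_sqs_lt, eval_sqs, eval_numT, Tm.eval, Nat.cast_mul]

/-- A formula whose set of solutions is closed. -/
def Clo (φ : Fm) : Prop := IsClosed {v : ℕ → ℝ | φ.Holds v}

theorem cont_eval (t : Tm) : Continuous fun v : ℕ → ℝ => t.eval v := by
  induction t with
  | var i => exact continuous_apply i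
  | zero => exact continuous_const
  | one => exact continuous_const
  | add s t h1 h2 => exact h1.add h2
  | neg s h1 => exact h1.neg
  | mul s t h1 h2 => exact h1.mul h2

theorem clo_eq (s t : Tm) : Clo (Fm.eq s t) := isClosed_eq (cont_eval s) (cont_eval t)
theorem clo_le (s t : Tm) : Clo (Fm.le s t) := isClosed_le (cont_eval s) (cont_eval t)
theorem clo_or {φ ψ : Fm} (h1 : Clo φ) (h2 : Clo ψ) : Clo (Fm.or φ ψ) := IsClosed.union h1 h2

theorem clo_conj {l : List Fm} (h : ∀ φ ∈ l, Clo φ) : Clo (conj l) := by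
  unfold Clo
  have h1 : {v : ℕ → ℝ | (conj l).Holds v} = ⋂ φ ∈ l, {v | φ.Holds v} := by
    ext v
    simp [holds_conj]
  rw [h1]
  exact isClosed_iInter fun φ => isClosed_iInter fun hφ => h φ hφ

theorem clo_not_conj {l : List Tm} : Clo (Fm.not (conj (l.map fun t => Fm.lt t Tm.one))) := by
  unfold Clo
  have h1 : {v : ℕ → ℝ | (Fm.not (conj (l.map fun t => Fm.lt t Tm.one))).Holds v} =
      (⋂ t : {t : Tm // t ∈ l}, {v | t.1.eval v < 1})ᶜ := by
    ext v
    simp [holds_conj, Fm.Holds, Tm.eval]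
  rw [h1, isClosed_compl_iff]
  have : Finite {t : Tm // t ∈ l} := List.finite_toSet l
  exact isOpen_iInter_of_finite fun t => isOpen_lt (cont_eval t.1) continuous_const

theorem clo_fC : Clo (fC p) := by
  unfold fC
  apply clo_conj
  rw [List.forall_mem_append, List.forall_mem_append]
  refine ⟨?_, ?_, ?_⟩
  · rw [List.forall_mem_map]
    exact fun t _ => clo_le _ _
  · rw [List.forall_mem_map]
    exact fun t _ => clo_le _ _
  · rw [List.forall_mem_cons, List.forall_mem_cons, List.forall_mem_singleton]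
    refine ⟨clo_or clo_not_conj (clo_conj ?_), clo_eq _ _, clo_le _ _⟩
    have hch : ∀ b k, ∀ φ ∈ chain b k, Clo φ := by
      intro b k φ hφ
      obtain ⟨j, -, rfl⟩ := List.mem_map.1 hφ
      exact clo_eq _ _
    unfold fP
    simp only [List.forall_mem_cons, List.forall_mem_append, List.not_mem_nil, false_implies,
      implies_true, and_true]
    exact ⟨clo_eq _ _, hch _ _, clo_eq _ _, hch _ _, clo_eq _ _, hch _ _, clo_le _ _⟩

theorem isClosed_CC : IsClosed (CC p) := by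
  have h1 : Continuous fun c : EuclideanSpace ℝ (Fin (dn p)) ×
      EuclideanSpace ℝ (Fin (dm p + 2)) × EuclideanSpace ℝ (Fin (dL p + 1)) =>
      asg ((sp p).pt c.1 c.2.1 c.2.2) := by
    rw [continuous_pi_iff]
    intro i
    refine (continuous_asg i).comp ?_
    change Continuous fun c : EuclideanSpace ℝ (Fin (dn p)) ×
      EuclideanSpace ℝ (Fin (dm p + 2)) × EuclideanSpace ℝ (Fin (dL p + 1)) =>
      (WithLp.toLp 2 (Fin.append (Fin.append (fun i => c.1 i) fun i => c.2.1 i)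
        fun i => c.2.2 i) : EuclideanSpace ℝ (Fin (DD p)))
    refine (PiLp.continuous_toLp 2 _).comp ?_
    rw [continuous_pi_iff]
    intro j
    refine Fin.addCases (fun j => ?_) (fun j => ?_) j
    · refine Fin.addCases (fun j => ?_) (fun j => ?_) j
      · simp only [Fin.append_left]
        fun_prop
      · simp only [Fin.append_left, Fin.append_right]
        fun_prop
    · simp only [Fin.append_right]
      fun_prop
  exact (clo_fC p).preimage h1

/-- The facts about a point of the set. -/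
theorem CC_facts {c : EuclideanSpace ℝ (Fin (dn p)) × EuclideanSpace ℝ (Fin (dm p + 2)) ×
    EuclideanSpace ℝ (Fin (dL p + 1))} (hc : c ∈ CC p) :
    (∀ j, c.1 j ^ 2 ≤ 1) ∧ (∀ j : Fin (dL p), c.2.2 (Fin.castSucc j) ^ 2 ≤ 1) ∧
    ‖c.2.2‖ = rad p ∧ 0 ≤ c.2.2 (Fin.last _) := by
  have h := (holds_fC p _).1 hc
  obtain ⟨h1, h2, -, h4, h5⟩ := h
  set q := (sp p).pt c.1 c.2.1 c.2.2 with hq
  have eX : (sp p).X q = c.1 := (sp p).X_mk _ _ _
  have eW : (sp p).W q = c.2.2 := (sp p).W_mk _ _ _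
  refine ⟨fun j => ?_, fun j => ?_, ?_, ?_⟩
  · have := h1 j j.2
    rw [zero_add, asg_X q j.2, eX] at this
    exact this
  · have := h2 j j.2
    rw [asg_cast q j.2, eW] at this
    exact this
  · have h6 := sum_asg q 0
    rw [sub_zero, zero_smul, sub_zero, ← Finset.sum_range_succ, h4, eW] at h6
    have h7 : (0 : ℝ) ≤ rad p := Nat.cast_nonneg _
    have h8 : ‖c.2.2‖ ^ 2 = (rad p : ℝ) ^ 2 := by rw [← h6]; ring
    exact (sq_eq_sq₀ (norm_nonneg _) h7).1 h8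
  · have : asg q (ih p) = (sp p).W q (Fin.last _) := asg_last q
    rw [this, eW] at h5
    exact h5

theorem CC_1 : ∀ c ∈ CC p, ‖c.1‖ ≤ (dn p + 1 : ℝ) := by
  intro c hc
  have h := (CC_facts p hc).1
  have h1 : ‖c.1‖ ^ 2 ≤ dn p := by
    rw [EuclideanSpace.norm_sq_eq]
    calc ∑ i, ‖c.1 i‖ ^ 2 ≤ ∑ _i : Fin (dn p), (1 : ℝ) := by
          refine Finset.sum_le_sum fun i _ => ?_
          rw [Real.norm_eq_abs, sq_abs]
          exact h i
      _ = dn p := by simp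
  have h2 : (0 : ℝ) ≤ dn p := Nat.cast_nonneg _
  refine abs_le_of_sq_le_sq' ?_ (by positivity) |>.2
  nlinarith

theorem CC_2 : ∀ c ∈ CC p, ‖c.2.2‖ = (rad p : ℝ) := fun _ hc => (CC_facts p hc).2.2.1

theorem CC_3 : ∀ c ∈ CC p, ‖c.2.2 - (2 * (rad p : ℝ) - 2) • eL (dL p)‖ ≤ rad p := by
  intro c hc
  obtain ⟨-, h2, h3, h4⟩ := CC_facts p hc
  have h5 := norm_sub_smul (dL p) c.2.2 0
  rw [zero_smul, sub_zero, sub_zero, h3] at h5
  have h6 : ∑ j : Fin (dL p), c.2.2 (Fin.castSucc j) ^ 2 ≤ dL p := by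
    calc _ ≤ ∑ _i : Fin (dL p), (1 : ℝ) := Finset.sum_le_sum fun i _ => h2 i
      _ = dL p := by simp
  have h7 : (rad p : ℝ) - 1 ≤ c.2.2 (Fin.last _) := by
    refine abs_le_of_sq_le_sq' ?_ h4 |>.2
    rw [rad_real] at h5 ⊢
    nlinarith
  have hR : (4 : ℝ) ≤ rad p := by
    rw [rad_real]
    have : (0 : ℝ) ≤ dL p := Nat.cast_nonneg _
    linarith
  refine abs_le_of_sq_le_sq' ?_ (by linarith) |>.2
  rw [norm_sub_smul]
  nlinarith

theorem rad_ge : (4 : ℝ) ≤ rad p := by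
  rw [rad_real]
  have : (0 : ℝ) ≤ dL p := Nat.cast_nonneg _
  linarith

theorem semi_fA : semi (DD p) (fA p) = SA (sp p) (eL (dL p)) (rad p) := by
  ext q
  have e1 := W_eq_iff q (n := dn p) (m := dm p + 2) (L := dL p)
  have e2 := X_eq_zero_iff q (n := dn p) (m := dm p + 2) (L := dL p)
  have e3 : ((2 * rad p - 2 : ℕ) : ℝ) = 2 * (rad p : ℝ) - 2 := by
    have : 2 ≤ 2 * rad p := by unfold rad; omega
    push_cast [Nat.cast_sub this]
    rfl
  have e0 : (sp p).W q = 0 ↔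
      (∀ j < dL p, asg q (dn p + (dm p + 2) + j) = 0) ∧ asg q (dn p + (dm p + 2) + dL p) = 0 := by
    rw [← e1 0, zero_smul]
  unfold SA semi fA
  simp only [Set.mem_ofPred_eq, Fm.Holds, holds_zer, Tm.eval, eval_numT, zero_add]
  rw [e0, e2, e1, e1, e1, e3]
  push_cast
  unfold ih
  have e4 : ∀ a b : ℝ, a + b = 0 ↔ a = -b := fun a b => by
    constructor <;> intro h <;> linarith
  rw [e4]
  constructor
  · rintro (⟨h1, h2, h3⟩ | ⟨h2, h3 | h3 | h3⟩)
    · exact Or.inl ⟨h1, h2, h3⟩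
    · exact Or.inr (Or.inl ⟨h2, h3⟩)
    · exact Or.inr (Or.inr (Or.inl ⟨h2, h3⟩))
    · exact Or.inr (Or.inr (Or.inr ⟨h2, h3⟩))
  · rintro (⟨h1, h2, h3⟩ | ⟨h2, h3⟩ | ⟨h2, h3⟩ | ⟨h2, h3⟩)
    · exact Or.inl ⟨h1, h2, h3⟩
    · exact Or.inr ⟨h2, Or.inl h3⟩
    · exact Or.inr ⟨h2, Or.inr (Or.inl h3)⟩
    · exact Or.inr ⟨h2, Or.inr (Or.inr h3)⟩

theorem semi_fB : semi (DD p) (fB p) = SB (sp p) (eL (dL p)) (rad p) (CC p) := by
  ext q
  have e1 := W_eq_iff q (n := dn p) (m := dm p + 2) (L := dL p)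
  have e5 : ∀ t : ℝ, (∑ j ∈ Finset.range (dL p), asg q (dn p + (dm p + 2) + j) ^ 2 +
      (asg q (ih p) - t) ^ 2 = (rad p : ℝ) * rad p) ↔
      ‖(sp p).W q - t • eL (dL p)‖ = rad p := by
    intro t
    unfold ih
    rw [sum_asg, ← sq]
    exact sq_eq_sq₀ (norm_nonneg _) (Nat.cast_nonneg _)
  unfold SB semi fB
  simp only [Set.mem_ofPred_eq, Fm.Holds, holds_zer, Tm.eval, eval_numT, eval_sqs, eval_sqT,
    eval_subT, mem_CC_iff]
  push_cast
  rw [e1, ← e5, ← e5, sub_neg_eq_add]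
  rfl

end Pool.Agent.NPC.R537HD
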