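import Pool.Agent.R537.HD.PolyT
import Pool.Agent.ER.Rat

/-!
# The translated Hausdorff distance problem belongs to `∃∀∃ℝ`
-/

set_option autoImplicit false

namespace Pool.Agent.NPC.R537HD

open Pool.Agent.NPC Pool.Agent.NPC.ER Pool.Agent.NPC.H612
open Metric (hausdorffEDist)

/-! ### Membership in `∃∀∃ℝ` -/

theorem InEAE.of_poly {α : Type} [TEnc α] [TDec α] {P : α → Prop} {f : α → Inp}
    (h : Poly f) (hP : ∀ a, P a ↔ EAE (f a)) : InEAE (lang P) := by
  refine ⟨fun w => (match unbits α w with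
    | none => (([] : List ℕ), ([] : List ℕ), Fm.ff)
    | some a => f a), ?_, fun w => ?_⟩
  · have h1 : Poly (fun w : List Bool => (match unbits α w with
        | none => (([] : List ℕ), ([] : List ℕ), Fm.ff) | some a => f a)) :=
      Poly.optCases (g := fun _ => (([] : List ℕ), ([] : List ℕ), Fm.ff))
        (h := fun _ a => f a) poly_unbits (Poly.const _) (h.comp (Poly.snd Poly.id))
    exact polyTime_bits h1
  · rw [mem_lang_iff]
    cases hx : unbits α w with
    | none =>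
      simp only [hx, reduceCtorEq, false_and, exists_false, false_iff]
      rintro ⟨x, h⟩
      obtain ⟨z, hz⟩ := h x
      exact lt_irrefl _ hz
    | some a => simp only [hx]; simp [hP a]

/-! ### Renaming the variables -/

/-- Renaming of the variables of a term. -/
def renT (n c : ℕ) : Tm → Tm
  | .var i => if i < n then Tm.var (6 * i + c) else Tm.zero
  | .zero => Tm.zero
  | .one => Tm.one
  | .add s t => Tm.add (renT n c s) (renT n c t)
  | .neg t => Tm.neg (renT n c t)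
  | .mul s t => Tm.mul (renT n c s) (renT n c t)

/-- Renaming of the variables of a formula. -/
def renF (n c : ℕ) : Fm → Fm
  | .eq s t => Fm.eq (renT n c s) (renT n c t)
  | .lt s t => Fm.lt (renT n c s) (renT n c t)
  | .le s t => Fm.le (renT n c s) (renT n c t)
  | .not φ => Fm.not (renF n c φ)
  | .and φ ψ => Fm.and (renF n c φ) (renF n c ψ)
  | .or φ ψ => Fm.or (renF n c φ) (renF n c ψ)

/-- Renaming of symbols. -/
def tokR (n c : ℕ) (t : Tok) : List Tok :=
  if t.code.1 = 0 then (if t.code.2 < n then [Tok.var (6 * t.code.2 + c)] else [Tok.zero])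
  else [t]

theorem toks_renT (n c : ℕ) (t : Tm) : (renT n c t).toks = t.toks.flatMap (tokR n c) := by
  induction t with
  | var i =>
    have h : tokR n c (Tok.var i) = if i < n then [Tok.var (6 * i + c)] else [Tok.zero] := rfl
    have h2 : (Tm.var i).toks.flatMap (tokR n c) = tokR n c (Tok.var i) := by
      simp [Tm.toks]
    rw [h2, h]
    unfold renT
    split_ifs <;> rfl
  | zero => rfl
  | one => rfl
  | add s t h1 h2 => simp [renT, Tm.toks, h1, h2, tokR, Tok.code]
  | neg s h1 => simp [renT, Tm.toks, h1, tokR, Tok.code]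
  | mul s t h1 h2 => simp [renT, Tm.toks, h1, h2, tokR, Tok.code]

theorem toks_renF (n c : ℕ) (φ : Fm) : (renF n c φ).toks = φ.toks.flatMap (tokR n c) := by
  induction φ with
  | eq s t => simp [renF, Fm.toks, toks_renT, tokR, Tok.code]
  | lt s t => simp [renF, Fm.toks, toks_renT, tokR, Tok.code]
  | le s t => simp [renF, Fm.toks, toks_renT, tokR, Tok.code]
  | not φ h1 => simp [renF, Fm.toks, h1, tokR, Tok.code]
  | and φ ψ h1 h2 => simp [renF, Fm.toks, h1, h2, tokR, Tok.code]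
  | or φ ψ h1 h2 => simp [renF, Fm.toks, h1, h2, tokR, Tok.code]

/-- The point given by a block of variables. -/
noncomputable def pnt (n c : ℕ) (v : ℕ → ℝ) : EuclideanSpace ℝ (Fin n) :=
  WithLp.toLp 2 fun j => v (6 * j + c)

theorem eval_renT (n c : ℕ) (v : ℕ → ℝ) (t : Tm) :
    (renT n c t).eval v = t.eval (asg (pnt n c v)) := by
  induction t with
  | var i =>
    simp only [renT, Tm.eval, asg, pnt]
    split_ifs <;> rfl
  | zero => rfl
  | one => rfl
  | add s t h1 h2 => simp [renT, Tm.eval, h1, h2]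
  | neg s h1 => simp [renT, Tm.eval, h1]
  | mul s t h1 h2 => simp [renT, Tm.eval, h1, h2]

theorem holds_renF (n c : ℕ) (v : ℕ → ℝ) (φ : Fm) :
    (renF n c φ).Holds v ↔ pnt n c v ∈ semi n φ := by
  change _ ↔ φ.Holds (asg (pnt n c v))
  induction φ with
  | eq s t => simp [renF, Fm.Holds, eval_renT]
  | lt s t => simp [renF, Fm.Holds, eval_renT]
  | le s t => simp [renF, Fm.Holds, eval_renT]
  | not φ h1 => simp [renF, Fm.Holds, h1]
  | and φ ψ h1 h2 => simp [renF, Fm.Holds, h1, h2]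
  | or φ ψ h1 h2 => simp [renF, Fm.Holds, h1, h2]

/-- The square of the distance of `pnt ca + pnt 0` and `pnt cb`. -/
def dstT (n ca cb : ℕ) : Tm := sumT ((List.range n).map fun i =>
  sqT (subT (Tm.add (Tm.var (6 * i + ca)) (Tm.var (6 * i + 0))) (Tm.var (6 * i + cb))))

theorem eval_dstT (n ca cb : ℕ) (v : ℕ → ℝ) : (dstT n ca cb).eval v =
    dist (pnt n ca v + pnt n 0 v) (pnt n cb v) ^ 2 := by
  rw [dist_eq_norm, EuclideanSpace.norm_sq_eq, dstT, eval_sumT, List.map_map]
  have h : (Tm.eval v ∘ fun i => sqT (subT (Tm.add (Tm.var (6 * i + ca)) (Tm.var (6 * i + 0)))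
      (Tm.var (6 * i + cb)))) = fun i => (v (6 * i + ca) + v (6 * i + 0) - v (6 * i + cb)) ^ 2 := by
    funext i
    simp [Tm.eval]
  rw [h]
  have h2 : ∀ k : ℕ, ((List.range k).map
      fun i => (v (6 * i + ca) + v (6 * i + 0) - v (6 * i + cb)) ^ 2).sum =
      ∑ i ∈ Finset.range k, (v (6 * i + ca) + v (6 * i + 0) - v (6 * i + cb)) ^ 2 := by
    intro k
    induction k with
    | zero => simp
    | succ k ih => rw [List.range_succ, Finset.sum_range_succ, ← ih]; simp
  rw [h2, ← Fin.sum_univ_eq_sum_range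
    (fun i => (v (6 * i + ca) + v (6 * i + 0) - v (6 * i + cb)) ^ 2)]
  refine Finset.sum_congr rfl fun j _ => ?_
  rw [Real.norm_eq_abs, sq_abs]
  rfl

/-- The distance is smaller than `d + ε`. -/
def ltF (n ca cb : ℕ) (d : ℚ) : Fm :=
  Fm.lt (Tm.mul (sqT (numT d.den)) (dstT n ca cb))
    (sqT (Tm.add (intT d.num) (Tm.mul (numT d.den) (Tm.var 5))))

theorem holds_ltF (n ca cb : ℕ) (d : ℚ) (v : ℕ → ℝ) (hd : 0 ≤ d) (hv : 0 < v 5) :
    (ltF n ca cb d).Holds v ↔ dist (pnt n ca v + pnt n 0 v) (pnt n cb v) < d + v 5 := by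
  unfold ltF
  simp only [Fm.Holds, Tm.eval, eval_sqT, eval_numT, eval_dstT, eval_intT]
  have h1 : (0 : ℝ) < d.den := by exact_mod_cast d.den_pos
  have h2 : (d : ℝ) = d.num / d.den := by exact_mod_cast (Rat.num_div_den d).symm
  have h3 : (d.num : ℝ) + d.den * v 5 = d.den * (d + v 5) := by
    rw [h2]; field_simp
  have h4 : (0 : ℝ) ≤ d := by exact_mod_cast hd
  rw [h3, ← mul_pow]
  rw [sq_lt_sq₀ (by positivity) (by positivity)]
  exact mul_lt_mul_iff_right₀ h1

/-- Implication. -/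
def impF (φ ψ : Fm) : Fm := Fm.or (Fm.not φ) ψ

theorem holds_impF (v : ℕ → ℝ) (φ ψ : Fm) : (impF φ ψ).Holds v ↔ (φ.Holds v → ψ.Holds v) := by
  simp only [impF, Fm.Holds]
  tauto

/-- The formula of an instance. -/
def memF (I : Inst) : Fm :=
  Fm.and (Fm.le Tm.zero (intT I.2.2.2.num)) (Fm.and
    (impF (Fm.and (Fm.lt Tm.zero (Tm.var 5)) (renF I.1.length 1 I.2.1))
      (Fm.and (renF I.1.length 3 I.2.2.1) (ltF I.1.length 1 3 I.2.2.2)))
    (impF (Fm.and (Fm.lt Tm.zero (Tm.var 5)) (renF I.1.length 2 I.2.2.1))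
      (Fm.and (renF I.1.length 4 I.2.1) (ltF I.1.length 4 2 I.2.2.2))))

theorem holds_memF (I : Inst) (v : ℕ → ℝ) : (memF I).Holds v ↔ 0 ≤ I.2.2.2 ∧
    (0 < v 5 → pnt I.1.length 1 v ∈ semi I.1.length I.2.1 → pnt I.1.length 3 v ∈ semi I.1.length I.2.2.1 ∧
      dist (pnt I.1.length 1 v + pnt I.1.length 0 v) (pnt I.1.length 3 v) < I.2.2.2 + v 5) ∧
    (0 < v 5 → pnt I.1.length 2 v ∈ semi I.1.length I.2.2.1 → pnt I.1.length 4 v ∈ semi I.1.length I.2.1 ∧
      dist (pnt I.1.length 4 v + pnt I.1.length 0 v) (pnt I.1.length 2 v) < I.2.2.2 + v 5) := by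
  unfold memF
  simp only [Fm.Holds, holds_impF, holds_renF, Tm.eval, eval_intT]
  have h0 : (0 : ℝ) ≤ (I.2.2.2.num : ℝ) ↔ 0 ≤ I.2.2.2 := by
    rw [← Rat.num_nonneg]
    exact Int.cast_nonneg_iff
  rw [h0]
  refine and_congr_right fun hd => ?_
  constructor
  · rintro ⟨h1, h2⟩
    refine ⟨fun hv ha => ?_, fun hv ha => ?_⟩
    · obtain ⟨h3, h4⟩ := h1 ⟨hv, ha⟩
      exact ⟨h3, (holds_ltF _ _ _ _ v hd hv).1 h4⟩
    · obtain ⟨h3, h4⟩ := h2 ⟨hv, ha⟩
      exact ⟨h3, (holds_ltF _ _ _ _ v hd hv).1 h4⟩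
  · rintro ⟨h1, h2⟩
    refine ⟨fun hv => ?_, fun hv => ?_⟩
    · obtain ⟨h3, h4⟩ := h1 hv.1 hv.2
      exact ⟨h3, (holds_ltF _ _ _ _ v hd hv.1).2 h4⟩
    · obtain ⟨h3, h4⟩ := h2 hv.1 hv.2
      exact ⟨h3, (holds_ltF _ _ _ _ v hd hv.1).2 h4⟩

/-- The sentence of an instance. -/
def memS (I : Inst) : Inp :=
  ((List.range I.1.length).map (fun i => 6 * i),
    5 :: ((List.range I.1.length).map (fun i => 6 * i + 1) ++
      (List.range I.1.length).map fun i => 6 * i + 2),
    memF I)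

theorem hausdorff_le_iff {n : ℕ} (A B : Set (EuclideanSpace ℝ (Fin n))) {d : ℝ} (hd : 0 ≤ d) :
    hausdorffEDist A B ≤ ENNReal.ofReal d ↔ ∀ ε : ℝ, 0 < ε →
      (∀ a ∈ A, ∃ b ∈ B, dist a b < d + ε) ∧ ∀ b ∈ B, ∃ a ∈ A, dist a b < d + ε := by
  constructor
  · intro h ε hε
    have h1 : hausdorffEDist A B < ENNReal.ofReal (d + ε) := by
      refine lt_of_le_of_lt h ?_
      rw [ENNReal.ofReal_lt_ofReal_iff (by linarith)]
      linarith
    constructor
    · intro a ha
      obtain ⟨b, hb, hb2⟩ := Metric.exists_edist_lt_of_hausdorffEDist_lt ha h1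
      rw [edist_dist, ENNReal.ofReal_lt_ofReal_iff (by linarith)] at hb2
      exact ⟨b, hb, hb2⟩
    · intro b hb
      rw [Metric.hausdorffEDist_comm] at h1
      obtain ⟨a, ha, hb2⟩ := Metric.exists_edist_lt_of_hausdorffEDist_lt hb h1
      rw [edist_dist, ENNReal.ofReal_lt_ofReal_iff (by linarith), dist_comm] at hb2
      exact ⟨a, ha, hb2⟩
  · intro h
    refine ENNReal.le_of_forall_pos_le_add fun ε hε _ => ?_
    obtain ⟨h1, h2⟩ := h ε (by exact_mod_cast hε)
    have e : ENNReal.ofReal d + ε = ENNReal.ofReal (d + ε) := by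
      rw [ENNReal.ofReal_add hd (by positivity), ENNReal.ofReal_coe_nnreal]
    rw [e]
    refine Metric.hausdorffEDist_le_of_mem_edist ?_ ?_
    · intro a ha
      obtain ⟨b, hb, hb2⟩ := h1 a ha
      exact ⟨b, hb, by rw [edist_dist]; exact ENNReal.ofReal_le_ofReal hb2.le⟩
    · intro b hb
      obtain ⟨a, ha, hb2⟩ := h2 b hb
      exact ⟨a, ha, by rw [edist_dist, dist_comm]; exact ENNReal.ofReal_le_ofReal hb2.le⟩

theorem pnt_congr {n c : ℕ} {v w : ℕ → ℝ} (h : ∀ j < n, v (6 * j + c) = w (6 * j + c)) :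
    pnt n c v = pnt n c w := by
  unfold pnt
  congr 1
  funext j
  exact h j j.2

theorem mem_E {n c j : ℕ} (hc : c < 6) :
    6 * j + c ∈ (List.range n).map (fun i => 6 * i) ↔ j < n ∧ c = 0 := by
  simp only [List.mem_map, List.mem_range]
  constructor
  · rintro ⟨i, hi, h⟩; omega
  · rintro ⟨h1, h2⟩; exact ⟨j, h1, by omega⟩

theorem mem_F {n c j : ℕ} (hc : c < 6) :
    6 * j + c ∈ 5 :: ((List.range n).map (fun i => 6 * i + 1) ++
      (List.range n).map fun i => 6 * i + 2) ↔ (j = 0 ∧ c = 5) ∨ (j < n ∧ (c = 1 ∨ c = 2)) := by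
  simp only [List.mem_cons, List.mem_append, List.mem_map, List.mem_range]
  constructor
  · rintro (h | ⟨i, hi, h⟩ | ⟨i, hi, h⟩) <;> omega
  · rintro (h | ⟨h1, h2 | h2⟩)
    · left; omega
    · right; left; exact ⟨j, h1, by omega⟩
    · right; right; exact ⟨j, h1, by omega⟩

theorem trans_iff_eae (I : Inst) : TransHausdorff I ↔ EAE (memS I) := by
  classical
  obtain ⟨u, φ, ψ, d⟩ := I
  unfold TransHausdorff TransLE EAE memS
  simp only [holds_memF]
  generalize u.length = n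
  set E := (List.range n).map (fun i => 6 * i) with hE
  set F := 5 :: ((List.range n).map (fun i => 6 * i + 1) ++
    (List.range n).map fun i => 6 * i + 2) with hF
  have v0 : ∀ x y z : ℕ → ℝ, pnt n 0 (mixv E x (mixv F y z)) = pnt n 0 x := by
    intro x y z
    refine pnt_congr fun j hj => ?_
    unfold mixv
    rw [if_pos ((mem_E (by norm_num)).2 ⟨hj, rfl⟩)]
  have v12 : ∀ (x y z : ℕ → ℝ) (c : ℕ), (c = 1 ∨ c = 2) →
      pnt n c (mixv E x (mixv F y z)) = pnt n c y := by
    intro x y z c hc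
    refine pnt_congr fun j hj => ?_
    unfold mixv
    rw [if_neg (fun h => by have := ((mem_E (by omega)).1 h).2; omega),
      if_pos ((mem_F (by omega)).2 (Or.inr ⟨hj, hc⟩))]
  have v34 : ∀ (x y z : ℕ → ℝ) (c : ℕ), (c = 3 ∨ c = 4) →
      pnt n c (mixv E x (mixv F y z)) = pnt n c z := by
    intro x y z c hc
    refine pnt_congr fun j hj => ?_
    unfold mixv
    rw [if_neg (fun h => by have := ((mem_E (by omega)).1 h).2; omega),
      if_neg (fun h => by have := (mem_F (by omega)).1 h; omega)]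
  have v5 : ∀ x y z : ℕ → ℝ, mixv E x (mixv F y z) 5 = y 5 := by
    intro x y z
    unfold mixv
    rw [if_neg (fun h => by
      have := ((mem_E (n := n) (j := 0) (c := 5) (by norm_num)).1 h).2; omega),
      if_pos (by rw [hF]; exact List.mem_cons_self)]
  simp only [v0, v12 _ _ _ 1 (Or.inl rfl), v12 _ _ _ 2 (Or.inr rfl), v34 _ _ _ 3 (Or.inl rfl),
    v34 _ _ _ 4 (Or.inr rfl), v5]
  have hpnt : ∀ (a : EuclideanSpace ℝ (Fin n)) (c : ℕ), c < 6 →
      pnt n c (fun k => asg a (k / 6)) = a := by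
    intro a c hc
    ext j
    have e : (6 * (j : ℕ) + c) / 6 = j := by omega
    change asg a ((6 * (j : ℕ) + c) / 6) = a j
    rw [e, asg, dif_pos j.2]
  constructor
  · rintro ⟨hd, vt, hvt⟩
    have hd' : (0 : ℝ) ≤ d := by exact_mod_cast hd
    rw [hausdorff_le_iff _ _ hd'] at hvt
    refine ⟨fun k => asg vt (k / 6), fun y => ?_⟩
    rw [hpnt vt 0 (by norm_num)]
    have hb : ∃ b, 0 < y 5 → pnt n 1 y ∈ semi n φ → b ∈ semi n ψ ∧
        dist (pnt n 1 y + vt) b < d + y 5 := by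
      by_cases h : 0 < y 5 ∧ pnt n 1 y ∈ semi n φ
      · obtain ⟨b, hb, hb2⟩ := (hvt (y 5) h.1).1 _ ⟨_, h.2, rfl⟩
        exact ⟨b, fun _ _ => ⟨hb, hb2⟩⟩
      · exact ⟨0, fun h1 h2 => absurd ⟨h1, h2⟩ h⟩
    have ha : ∃ a, 0 < y 5 → pnt n 2 y ∈ semi n ψ → a ∈ semi n φ ∧
        dist (a + vt) (pnt n 2 y) < d + y 5 := by
      by_cases h : 0 < y 5 ∧ pnt n 2 y ∈ semi n ψ
      · obtain ⟨_, ⟨a, ha, rfl⟩, ha2⟩ := (hvt (y 5) h.1).2 _ h.2
        exact ⟨a, fun _ _ => ⟨ha, ha2⟩⟩
      · exact ⟨0, fun h1 h2 => absurd ⟨h1, h2⟩ h⟩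
    obtain ⟨b, hb⟩ := hb
    obtain ⟨a, ha⟩ := ha
    refine ⟨fun k => if k % 6 = 3 then asg b (k / 6) else asg a (k / 6), hd, ?_, ?_⟩
    · have e : pnt n 3 (fun k => if k % 6 = 3 then asg b (k / 6) else asg a (k / 6)) = b := by
        rw [← hpnt b 3 (by norm_num)]
        refine pnt_congr fun j _ => ?_
        rw [if_pos (by omega)]
        rw [hpnt b 3 (by norm_num)]
      rw [e]
      exact hb
    · have e : pnt n 4 (fun k => if k % 6 = 3 then asg b (k / 6) else asg a (k / 6)) = a := by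
        rw [← hpnt a 4 (by norm_num)]
        refine pnt_congr fun j _ => ?_
        rw [if_neg (by omega)]
        rw [hpnt a 4 (by norm_num)]
      rw [e]
      exact ha
  · rintro ⟨x, hx⟩
    have hd : 0 ≤ d := by
      obtain ⟨z, hz⟩ := hx 0
      exact hz.1
    have hd' : (0 : ℝ) ≤ d := by exact_mod_cast hd
    refine ⟨hd, pnt n 0 x, ?_⟩
    rw [hausdorff_le_iff _ _ hd']
    intro ε hε
    have key : ∀ q : EuclideanSpace ℝ (Fin n), ∃ y : ℕ → ℝ, y 5 = ε ∧ pnt n 1 y = q ∧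
        pnt n 2 y = q := by
      intro q
      refine ⟨fun k => if k = 5 then ε else asg q (k / 6), if_pos rfl, ?_, ?_⟩
      · have h1 := hpnt q 1 (by norm_num)
        refine Eq.trans (pnt_congr fun j _ => ?_) h1
        rw [if_neg (by omega)]
      · have h1 := hpnt q 2 (by norm_num)
        refine Eq.trans (pnt_congr fun j _ => ?_) h1
        rw [if_neg (by omega)]
    constructor
    · rintro _ ⟨a, ha, rfl⟩
      obtain ⟨y, hy5, hy1, -⟩ := key a
      obtain ⟨z, -, hz, -⟩ := hx y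
      rw [hy5, hy1] at hz
      obtain ⟨h1, h2⟩ := hz hε ha
      exact ⟨_, h1, h2⟩
    · intro b hb
      obtain ⟨y, hy5, -, hy2⟩ := key b
      obtain ⟨z, -, -, hz⟩ := hx y
      rw [hy5, hy2] at hz
      obtain ⟨h1, h2⟩ := hz hε hb
      exact ⟨_, ⟨_, h1, rfl⟩, h2⟩

/-! ### Polynomial time -/

section

variable {α : Type} [TEnc α]

theorem poly_tokR {n : α → ℕ} (c : ℕ) {t : α → Tok} (hn : Poly n) (ht : Poly t) :
    Poly (fun a => tokR (n a) c (t a)) := by
  have h0 := poly_tok_code ht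
  have hi := Poly.snd h0
  exact Poly.ite (Poly.decide_eq (Poly.fst h0) (Poly.const 0))
    (Poly.ite (Poly.decide_lt hi hn) (Poly.cons (poly_tok_var' (Poly.add (Poly.mul
      (Poly.const 6) hi) (Poly.const c))) (Poly.const _)) (Poly.const _))
    (Poly.cons ht (Poly.const _))

theorem poly_renF {n : α → ℕ} (c : ℕ) {φ : α → Fm} (hn : Poly n) (hφ : Poly φ) :
    Poly (fun a => renF (n a) c (φ a)) := by
  refine fm_of_toks (Poly.congr (f := fun a => (φ a).toks.flatMap (tokR (n a) c)) ?_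
    fun a => (toks_renF _ _ _).symm)
  exact Poly.flatMap (F := fun a t => tokR (n a) c t) (fm_toks hφ)
    (poly_tokR c (hn.comp (Poly.fst Poly.id)) (Poly.snd Poly.id))

theorem poly_ratNum' {q : α → ℚ} (hq : Poly q) : Poly (fun a => (q a).num) := by
  have h : Poly (fun a => (((q a).num, (q a).den) : ℤ × ℕ)) := hq
  exact Poly.fst h

theorem poly_ratDen' {q : α → ℚ} (hq : Poly q) : Poly (fun a => (q a).den) := by
  have h : Poly (fun a => (((q a).num, (q a).den) : ℤ × ℕ)) := hq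
  exact Poly.snd h

theorem poly_dstT {n : α → ℕ} (ca cb : ℕ) (hn : UPoly n) : Poly (fun a => dstT (n a) ca cb) := by
  refine poly_sumT (Poly.map (F := fun _ i => sqT (subT (Tm.add (Tm.var (6 * i + ca))
    (Tm.var (6 * i + 0))) (Tm.var (6 * i + cb)))) hn.range ?_)
  have hi : Poly (fun q : α × ℕ => 6 * q.2) := Poly.mul (Poly.const 6) (Poly.snd Poly.id)
  exact poly_sqT (poly_subT (poly_tadd (poly_tvar (Poly.add hi (Poly.const _)))
    (poly_tvar (Poly.add hi (Poly.const _)))) (poly_tvar (Poly.add hi (Poly.const _))))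

theorem poly_ltF {n : α → ℕ} (ca cb : ℕ) {d : α → ℚ} (hn : UPoly n) (hd : Poly d) :
    Poly (fun a => ltF (n a) ca cb (d a)) := by
  have h1 := poly_numT (poly_ratDen' hd)
  exact poly_flt (poly_tmul (poly_sqT h1) (poly_dstT ca cb hn)) (poly_sqT (poly_tadd
    (poly_intT (poly_ratNum' hd)) (poly_tmul h1 (Poly.const _))))

theorem poly_impF {φ ψ : α → Fm} (h1 : Poly φ) (h2 : Poly ψ) :
    Poly (fun a => impF (φ a) (ψ a)) := poly_for (poly_fnot h1) h2

end

theorem poly_memF : Poly memF := by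
  have hI : Poly (fun I : Inst => I) := Poly.id
  have hn : UPoly (fun I : Inst => I.1.length) := UPoly.length (Poly.fst hI)
  have hφ : Poly (fun I : Inst => I.2.1) := Poly.fst (Poly.snd hI)
  have hψ : Poly (fun I : Inst => I.2.2.1) := Poly.fst (Poly.snd (Poly.snd hI))
  have hd : Poly (fun I : Inst => I.2.2.2) := Poly.snd (Poly.snd (Poly.snd hI))
  refine poly_fand (poly_fle (Poly.const _) (poly_intT (poly_ratNum' hd))) (poly_fand
    (poly_impF (poly_fand (Poly.const _) (poly_renF 1 hn.toPoly hφ)) (poly_fand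
      (poly_renF 3 hn.toPoly hψ) (poly_ltF 1 3 hn hd)))
    (poly_impF (poly_fand (Poly.const _) (poly_renF 2 hn.toPoly hψ)) (poly_fand
      (poly_renF 4 hn.toPoly hφ) (poly_ltF 4 2 hn hd))))

theorem poly_memS : Poly memS := by
  have hI : Poly (fun I : Inst => I) := Poly.id
  have hn : UPoly (fun I : Inst => I.1.length) := UPoly.length (Poly.fst hI)
  have hi : Poly (fun q : Inst × ℕ => 6 * q.2) := Poly.mul (Poly.const 6) (Poly.snd Poly.id)
  refine Poly.pair (Poly.map (F := fun _ i => 6 * i) hn.range hi) (Poly.pair (Poly.cons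
    (Poly.const _) (Poly.append (Poly.map (F := fun _ i => 6 * i + 1) hn.range
      (Poly.add hi (Poly.const _))) (Poly.map (F := fun _ i => 6 * i + 2) hn.range
      (Poly.add hi (Poly.const _))))) poly_memF)

/-- The translated Hausdorff distance problem belongs to `∃∀∃ℝ`. -/
theorem trans_mem : InEAE (lang TransHausdorff) := InEAE.of_poly poly_memS trans_iff_eae

/-- **The translated Hausdorff distance problem is `∃∀∃ℝ`-complete.** -/
theorem trans_complete : EAEComplete (lang TransHausdorff) := ⟨trans_mem, trans_hard⟩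

end Pool.Agent.NPC.R537HD
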