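import Pool.Agent.R537.HD.Corr

/-!
# The reduction is computable in polynomial time
-/

set_option autoImplicit false

namespace Pool.Agent.NPC.R537HD

open Pool.Agent.NPC Pool.Agent.NPC.ER Pool.Agent.NPC.H612
open Pool.Agent.R537.RN (kap kap' kap'' Gx)

section

variable {α : Type} [TEnc α]

theorem poly_con_vars' {f : α → ER.Con} (hf : Poly f) : Poly (fun a => (f a).vars) := by
  have h0 : Poly (fun a => (f a).code) := poly_con_code hf
  have h1 : Poly (fun a => decide ((f a).code.1 = 0)) := Poly.decide_eq (Poly.fst h0) (Poly.const 0)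
  have h : Poly (fun a => if (f a).code.1 = 0 then [(f a).code.2.1] else
      [(f a).code.2.1, (f a).code.2.2.1, (f a).code.2.2.2]) :=
    Poly.ite h1 (Poly.cons (Poly.fst (Poly.snd h0)) (Poly.const _))
      (Poly.cons (Poly.fst (Poly.snd h0)) (Poly.cons (Poly.fst (Poly.snd (Poly.snd h0)))
        (Poly.cons (Poly.snd (Poly.snd (Poly.snd h0))) (Poly.const _))))
  refine h.congr fun a => ?_
  cases f a <;> simp [Con.code, Con.vars]

variable {p : α → Inp} (hp : Poly p)

include hp

theorem poly_nS : Poly (fun a => nS (p a)) := poly_sysOf (Poly.snd (Poly.snd hp))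

theorem poly_vS : Poly (fun a => vS (p a)) :=
  Poly.flatMap (F := fun _ c => Con.vars c) (poly_nS hp) (poly_con_vars' (Poly.snd Poly.id))

theorem upoly_dn : UPoly (fun a => dn (p a)) := UPoly.length (Poly.fst hp)
theorem upoly_dm : UPoly (fun a => dm (p a)) := UPoly.length (Poly.fst (Poly.snd hp))
theorem upoly_dl : UPoly (fun a => dl (p a)) :=
  UPoly.add (UPoly.length (poly_vS hp)) (UPoly.const 1)
theorem upoly_ds : UPoly (fun a => ds (p a)) := UPoly.length (poly_nS hp)

omit hp in
theorem upoly_Gx {N b : α → ℕ} (hN : UPoly N) (hb : UPoly b) : UPoly (fun a => Gx (N a) (b a)) :=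
  UPoly.mul (UPoly.add (UPoly.add hb hN) (UPoly.const 4)) (UPoly.add hN (UPoly.const 2))

theorem upoly_dk : UPoly (fun a => dk (p a)) :=
  upoly_Gx (upoly_dl hp) (UPoly.add (upoly_ds hp) (UPoly.const 4))

theorem upoly_dk' : UPoly (fun a => dk' (p a)) :=
  upoly_Gx (UPoly.add (upoly_dm hp) (UPoly.const 1))
    (upoly_Gx (UPoly.add (upoly_dl hp) (UPoly.const 1))
      (UPoly.add (UPoly.add (upoly_dk hp) (upoly_ds hp)) (UPoly.const 6)))

theorem upoly_dk'' : UPoly (fun a => dk'' (p a)) :=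
  upoly_Gx (upoly_dn hp) (upoly_Gx (UPoly.add (upoly_dm hp) (UPoly.const 2))
    (upoly_Gx (UPoly.add (upoly_dl hp) (UPoly.const 1))
      (UPoly.add (UPoly.add (UPoly.add (upoly_dk hp) (upoly_dk' hp)) (upoly_ds hp))
        (UPoly.const 6))))

theorem upoly_bW : UPoly (fun a => bW (p a)) :=
  UPoly.add (UPoly.add (UPoly.add (upoly_dn hp) (upoly_dm hp)) (UPoly.const 3)) (upoly_dl hp)

theorem upoly_bR : UPoly (fun a => bR (p a)) :=
  UPoly.add (upoly_bW hp) (UPoly.add (upoly_dk hp) (UPoly.const 1))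

theorem upoly_bS : UPoly (fun a => bS (p a)) :=
  UPoly.add (upoly_bR hp) (UPoly.add (upoly_dk' hp) (UPoly.const 1))

theorem upoly_dL : UPoly (fun a => dL (p a)) :=
  UPoly.add (UPoly.add (UPoly.add (UPoly.add (upoly_dl hp) (UPoly.const 1))
    (UPoly.add (upoly_dk hp) (UPoly.const 1))) (UPoly.add (upoly_dk' hp) (UPoly.const 1)))
    (UPoly.add (upoly_dk'' hp) (UPoly.const 1))

theorem upoly_base : UPoly (fun a => dn (p a) + (dm (p a) + 2)) :=
  UPoly.add (upoly_dn hp) (UPoly.add (upoly_dm hp) (UPoly.const 2))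

theorem upoly_ih : UPoly (fun a => ih (p a)) := UPoly.add (upoly_base hp) (upoly_dL hp)

theorem upoly_rad : UPoly (fun a => rad (p a)) := UPoly.add (upoly_dL hp) (UPoly.const 4)

omit hp in
theorem poly_sqT {t : α → Tm} (ht : Poly t) : Poly (fun a => sqT (t a)) := poly_tmul ht ht

omit hp in
theorem poly_subT {s t : α → Tm} (hs : Poly s) (ht : Poly t) : Poly (fun a => subT (s a) (t a)) :=
  poly_tadd hs (poly_tneg ht)

omit hp in
theorem poly_numT {n : α → ℕ} (hn : Poly n) : Poly (fun a => numT (n a)) := poly_natT hn.natBits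

theorem poly_tσ : Poly (fun a => tσ (p a)) :=
  poly_tvar (UPoly.add (upoly_bS hp) (upoly_dk'' hp)).toPoly

theorem poly_tr : Poly (fun a => tr (p a)) := poly_sqT (poly_tvar (upoly_dn hp).toPoly)

theorem poly_tt' : Poly (fun a => tt' (p a)) :=
  poly_sqT (poly_tvar (UPoly.add (UPoly.add (upoly_dn hp) (upoly_dm hp)) (UPoly.const 2)).toPoly)

theorem poly_tPick {i : α → ℕ} (hi : Poly i) : Poly (fun a => tPick (p a) (i a)) := by
  have hi2 : Poly (fun a => i a / 2) := Poly.div hi (Poly.const 2)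
  have h1 : Poly (fun a => decide (i a % 2 = 0)) :=
    Poly.decide_eq (Poly.mod hi (Poly.const 2)) (Poly.const 0)
  have h2 : Poly (fun a => decide (i a / 2 ∈ (p a).1)) := Poly.decide_mem hi2 (Poly.fst hp)
  have h3 : Poly (fun a => decide (i a / 2 ∈ (p a).2.1)) :=
    Poly.decide_mem hi2 (Poly.fst (Poly.snd hp))
  refine Poly.ite (Poly.decide_and h1 h2) ?_ (Poly.ite (Poly.decide_and h1 h3) ?_ ?_)
  · exact poly_tmul (poly_tmul (poly_tr hp) (poly_tt' hp))
      (poly_tvar (poly_idxOf (Poly.fst hp) hi2))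
  · exact poly_tmul (poly_tmul (poly_tσ hp) (poly_tt' hp))
      (poly_tvar (Poly.add (Poly.add (upoly_dn hp).toPoly (Poly.const 2))
        (poly_idxOf (Poly.fst (Poly.snd hp)) hi2)))
  · exact poly_tmul (poly_tmul (poly_tσ hp) (poly_tr hp))
      (poly_tvar (Poly.add (Poly.add (Poly.add (upoly_dn hp).toPoly (upoly_dm hp).toPoly)
        (Poly.const 3)) (poly_idxOf (poly_vS hp) hi)))

theorem poly_tw : Poly (fun a => tw (p a)) :=
  poly_tmul (poly_tmul (poly_tσ hp) (poly_tr hp)) (poly_tt' hp)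

theorem poly_tCerr {c : α → ER.Con} (hc : Poly c) : Poly (fun a => tCerr (p a) (c a)) := by
  have h0 : Poly (fun a => (c a).code) := poly_con_code hc
  have d0 : Poly (fun a => decide ((c a).code.1 = 0)) :=
    Poly.decide_eq (Poly.fst h0) (Poly.const 0)
  have d1 : Poly (fun a => decide ((c a).code.1 = 1)) :=
    Poly.decide_eq (Poly.fst h0) (Poly.const 1)
  have e1 := poly_tPick hp (Poly.fst (Poly.snd h0))
  have e2 := poly_tPick hp (Poly.fst (Poly.snd (Poly.snd h0)))
  have e3 := poly_tPick hp (Poly.snd (Poly.snd (Poly.snd h0)))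
  have hw := poly_tw hp
  exact Poly.ite d0 (poly_tmul hw (poly_subT e1 hw)) (Poly.ite d1
    (poly_tmul hw (poly_subT (poly_tadd e1 e2) e3)) (poly_subT (poly_tmul e1 e2)
      (poly_tmul hw e3)))

theorem poly_tQ : Poly (fun a => tQ (p a)) :=
  poly_sumT (Poly.map (F := fun a c => sqT (tCerr (p a) c)) (poly_nS hp)
    (poly_sqT (poly_tCerr (hp.comp (Poly.fst Poly.id)) (Poly.snd Poly.id))))

theorem poly_tPhi : Poly (fun a => tPhi (p a)) := by
  have hr := poly_tr hp
  have hσ := poly_tσ hp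
  have h4 := poly_sqT (poly_sqT hσ)
  refine poly_tadd (poly_subT (poly_tmul (poly_tadd (poly_sqT hr) (poly_sqT (poly_tvar
    (UPoly.add (upoly_dn hp) (UPoly.const 1)).toPoly))) (poly_tQ hp))
    (poly_tmul (poly_tmul h4 (poly_tmul (poly_sqT (poly_sqT hr)) (poly_sqT hr)))
      (poly_tvar (UPoly.add (upoly_bW hp) (upoly_dk hp)).toPoly)))
    (poly_tmul (poly_tmul h4 hσ) (poly_tvar (UPoly.add (upoly_bR hp) (upoly_dk' hp)).toPoly))

omit hp in
theorem poly_chain {b k : α → ℕ} (hb : Poly b) (hk : UPoly k) :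
    Poly (fun a => chain (b a) (k a)) := by
  refine Poly.map (F := fun a j => Fm.eq (Tm.var (b a + j + 1)) (sqT (Tm.var (b a + j))))
    hk.range ?_
  have h1 : Poly (fun q : α × ℕ => b q.1 + q.2) :=
    Poly.add (hb.comp (Poly.fst Poly.id)) (Poly.snd Poly.id)
  exact poly_feq (poly_tvar (Poly.add h1 (Poly.const 1))) (poly_sqT (poly_tvar h1))

theorem poly_fP : Poly (fun a => fP (p a)) := by
  have hW := (upoly_bW hp).toPoly
  have hR := (upoly_bR hp).toPoly
  have hS := (upoly_bS hp).toPoly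
  refine Poly.cons (poly_feq (poly_tvar hW) (poly_tt' hp)) (Poly.append
    (poly_chain hW (upoly_dk hp)) (Poly.cons (poly_feq (poly_tvar hR) (poly_tr hp))
      (Poly.append (poly_chain hR (upoly_dk' hp)) (Poly.cons (poly_feq
        (poly_tadd (poly_tvar hS) (poly_tvar hS)) (Poly.const _)) (Poly.append
          (poly_chain hS (upoly_dk'' hp)) (Poly.cons (poly_fle (poly_tPhi hp) (Poly.const _))
            (Poly.const _)))))))

omit hp in
theorem poly_sqs {b k : α → ℕ} (hb : Poly b) (hk : UPoly k) : Poly (fun a => sqs (b a) (k a)) := by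
  refine Poly.map (F := fun a j => sqT (Tm.var (b a + j))) hk.range ?_
  exact poly_sqT (poly_tvar (Poly.add (hb.comp (Poly.fst Poly.id)) (Poly.snd Poly.id)))

omit hp in
theorem poly_zer {b k : α → ℕ} (hb : Poly b) (hk : UPoly k) : Poly (fun a => zer (b a) (k a)) := by
  refine poly_conj (Poly.map (F := fun a j => Fm.eq (Tm.var (b a + j)) Tm.zero) hk.range ?_)
  exact poly_feq (poly_tvar (Poly.add (hb.comp (Poly.fst Poly.id)) (Poly.snd Poly.id)))
    (Poly.const _)

theorem poly_fC : Poly (fun a => fC (p a)) := by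
  have hb := (upoly_base hp).toPoly
  have hR := (upoly_rad hp).toPoly
  have hle : ∀ {l : α → List Tm}, Poly l → Poly (fun a => (l a).map fun t => Fm.le t Tm.one) :=
    fun hl => Poly.map (F := fun _ t => Fm.le t Tm.one) hl
      (poly_fle (Poly.snd Poly.id) (Poly.const _))
  have hlt : ∀ {l : α → List Tm}, Poly l → Poly (fun a => (l a).map fun t => Fm.lt t Tm.one) :=
    fun hl => Poly.map (F := fun _ t => Fm.lt t Tm.one) hl
      (poly_flt (Poly.snd Poly.id) (Poly.const _))
  refine poly_conj (Poly.append (hle (poly_sqs (Poly.const 0) (upoly_dn hp))) (Poly.append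
    (hle (poly_sqs hb (upoly_dL hp))) (Poly.cons ?_ (Poly.cons ?_ (Poly.cons ?_
      (Poly.const _))))))
  · exact poly_for (poly_fnot (poly_conj (hlt (poly_sqs (upoly_dn hp).toPoly
      (UPoly.add (upoly_dm hp) (UPoly.const 2)))))) (poly_conj (poly_fP hp))
  · exact poly_feq (poly_sumT (poly_sqs hb (UPoly.add (upoly_dL hp) (UPoly.const 1))))
      (poly_numT (Poly.mul hR hR))
  · exact poly_fle (Poly.const _) (poly_tvar (upoly_ih hp).toPoly)

theorem poly_fB : Poly (fun a => fB (p a)) := by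
  have hb := (upoly_base hp).toPoly
  have hR := (upoly_rad hp).toPoly
  have hh := poly_tvar (upoly_ih hp).toPoly
  have hz := poly_zer hb (upoly_dL hp)
  have hs := poly_sumT (poly_sqs hb (upoly_dL hp))
  have hRR := poly_numT (Poly.mul hR hR)
  refine poly_for (poly_fC hp) (poly_for (poly_fand hz (poly_feq hh
    (poly_numT (Poly.mul (Poly.const 2) hR)))) (poly_for ?_ ?_))
  · exact poly_feq (poly_tadd hs (poly_sqT (poly_subT hh
      (poly_numT (Poly.mul (Poly.const 100) hR))))) hRR
  · exact poly_feq (poly_tadd hs (poly_sqT (poly_tadd hh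
      (poly_numT (Poly.mul (Poly.const 300) hR))))) hRR

theorem poly_fA : Poly (fun a => fA (p a)) := by
  have hb := (upoly_base hp).toPoly
  have hR := (upoly_rad hp).toPoly
  have hh := poly_tvar (upoly_ih hp).toPoly
  have hz := poly_zer hb (upoly_dL hp)
  have h0 := poly_zer (Poly.const 0) (upoly_dn hp)
  refine poly_for (poly_fand h0 (poly_fand hz (poly_feq hh (Poly.const _)))) (poly_fand hz
    (poly_for ?_ (poly_for ?_ ?_)))
  · exact poly_feq hh (poly_numT (Poly.sub (Poly.mul (Poly.const 2) hR) (Poly.const 2)))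
  · exact poly_feq hh (poly_numT (Poly.mul (Poly.const 100) hR))
  · exact poly_feq (poly_tadd hh (poly_numT (Poly.mul (Poly.const 300) hR))) (Poly.const _)

omit hp in
theorem poly_natRat {n : α → ℕ} (hn : Poly n) : Poly (fun a => ((n a : ℕ) : ℚ)) := by
  have h1 : Poly (fun a => ((false, n a), (1 : ℕ))) :=
    Poly.pair (Poly.pair (Poly.const false) hn) (Poly.const 1)
  refine Poly.of_toT ((Poly.toT' h1).congr fun a => ?_)
  change toT ((false, n a), (1 : ℕ)) = toT ((((n a : ℕ) : ℚ)).num, (((n a : ℕ) : ℚ)).den)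
  rw [Rat.num_natCast, Rat.den_natCast]
  change T.node (toT (false, n a)) (toT (1 : ℕ)) = T.node (toT ((n a : ℕ) : ℤ)) (toT (1 : ℕ))
  congr 1

theorem poly_inst : Poly (fun a => inst (p a)) :=
  Poly.pair (UPoly.add (upoly_base hp) (UPoly.add (upoly_dL hp) (UPoly.const 1)))
    (Poly.pair (poly_fA hp) (Poly.pair (poly_fB hp) (poly_natRat (upoly_rad hp).toPoly)))

end

/-! ### Hardness -/

/-- Hardness for `∃∀∃ℝ`. -/
theorem EAEHard.of_poly {α : Type} [TEnc α] {P : α → Prop} {F : Inp → α} (hF : Poly F)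
    (h : ∀ p, EAE p ↔ P (F p)) : EAEHard (lang P) := by
  rintro L' ⟨g, hg, hL⟩
  have h1 : PC (id : List Bool → List Bool) (bits : Inp → List Bool) g :=
    H642R2.TMSim.polyTime_toPC hg
  have h3 : PC (id : List Bool → List Bool) (bits : α → List Bool) (fun x => F (g x)) :=
    PC.comp (g := F) (eb := (bits : Inp → List Bool)) hF h1
  have h4 : PC (id : List Bool → List Bool) (id : List Bool → List Bool)
    (fun x => bits (F (g x))) := h3
  refine ⟨fun x => bits (F (g x)), PC.toPolyTime h4, fun x => ?_⟩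
  rw [hL, h, bits_mem_lang]

/-- The translated Hausdorff distance problem is `∃∀∃ℝ`-hard. -/
theorem trans_hard : EAEHard (lang TransHausdorff) :=
  EAEHard.of_poly (F := inst) (poly_inst Poly.id) fun p =>
    ⟨trans_of_eae p, fun h => eae_of_ghd p (ghd_of_trans h)⟩

/-- The Euclidean Gromov–Hausdorff distance problem is `∃∀∃ℝ`-hard. -/
theorem ghd_hard : EAEHard (lang GHD) :=
  EAEHard.of_poly (F := inst) (poly_inst Poly.id) fun p =>
    ⟨fun h => ghd_of_trans (trans_of_eae p h), eae_of_ghd p⟩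

end Pool.Agent.NPC.R537HD
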